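import Pool.Agent.H777R4.DM.Stmts

/-! Task LEAD2 of project H777-DSH: leading terms of `P(s_f, s_g) 1`. -/

set_option autoImplicit false

namespace Pool.Agent.H777R4.DM.Lead2

open Pool.Agent.H777R4.DM

attribute [local instance 100] LieRing.ofAssociativeRing

variable {α : Type}

theorem co_add (P Q : Al α) (v : List α) : co (P + Q) v = co P v + co Q v := by
  simp [co]

theorem co_smul (c : ℚ) (P : Al α) (v : List α) : co (c • P) v = c * co P v := by
  simp [co]

theorem co_zero (v : List α) : co (0 : Al α) v = 0 := by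
  simp [co]

theorem co_sub (P Q : Al α) (v : List α) : co (P - Q) v = co P v - co Q v := by
  have h : P - Q = P + (-1 : ℚ) • Q := by
    rw [neg_smul, one_smul, sub_eq_add_neg]
  rw [h, co_add, co_smul]; ring

theorem co_sum {ι : Type} (s : Finset ι) (P : ι → Al α) (v : List α) :
    co (∑ i ∈ s, P i) v = ∑ i ∈ s, co (P i) v := by
  classical
  induction s using Finset.induction_on with
  | empty => simp [co_zero]
  | insert a s ha ih => rw [Finset.sum_insert ha, Finset.sum_insert ha, co_add, ih]

theorem co_wd [DecidableEq α] (l v : List α) : co (wd l) v = if l = v then 1 else 0 := by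
  classical
  unfold co wd
  rw [MonoidAlgebra.of_apply, MonoidAlgebra.coeff_single, Finsupp.single_apply]
  by_cases h : l = v
  · subst h; simp
  · have : ¬ (FreeMonoid.ofList l = FreeMonoid.ofList v) := fun h' => h (FreeMonoid.ofList.injective h')
    rw [if_neg this, if_neg h]

theorem co_wd_ne {l v : List α} (h : co (wd l) v ≠ 0) : l = v := by
  classical
  rw [co_wd] at h
  by_contra h'
  rw [if_neg h'] at h
  exact h rfl

theorem wd_append (l m : List α) : (wd (l ++ m) : Al α) = wd l * wd m := by
  unfold wd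
  rw [← map_mul]; rfl

theorem wd_nil : (wd [] : Al α) = 1 := by
  unfold wd
  exact map_one _

theorem expand (P : Al α) :
    P = ∑ m ∈ P.coeff.support, co P (FreeMonoid.toList m) • wd (FreeMonoid.toList m) := by
  have h := MonoidAlgebra.sum_coeff_single P
  conv_lhs => rw [← h]
  rw [Finsupp.sum]
  refine Finset.sum_congr rfl fun m _ => ?_
  unfold co wd
  rw [MonoidAlgebra.of_apply, MonoidAlgebra.smul_single]
  simp

theorem co_mul_ne {P Q : Al α} {v : List α} (h : co (P * Q) v ≠ 0) :
    ∃ a b, v = a ++ b ∧ co P a ≠ 0 ∧ co Q b ≠ 0 := by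
  rw [expand P, expand Q, Finset.sum_mul_sum, co_sum] at h
  obtain ⟨m, _, hm⟩ := Finset.exists_ne_zero_of_sum_ne_zero h
  rw [co_sum] at hm
  obtain ⟨n, _, hn⟩ := Finset.exists_ne_zero_of_sum_ne_zero hm
  rw [smul_mul_smul_comm, co_smul, ← wd_append] at hn
  have h1 := left_ne_zero_of_mul hn
  have h2 := right_ne_zero_of_mul hn
  exact ⟨_, _, (co_wd_ne h2).symm, left_ne_zero_of_mul h1, right_ne_zero_of_mul h1⟩

theorem ext_co {P Q : Al α} (h : ∀ v, co P v = co Q v) : P = Q := by
  apply MonoidAlgebra.ext
  ext m
  exact h (FreeMonoid.toList m)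

/-- all words of `P` have weight `≥ n` -/
def Ge (q n : ℕ) (P : AY) : Prop := ∀ v, co P v ≠ 0 → n ≤ vw q v

theorem vw_append (q : ℕ) (a b : List ℕ) : vw q (a ++ b) = vw q a + vw q b := by
  simp [vw]

theorem Ge.mul {q n m : ℕ} {P Q : AY} (hP : Ge q n P) (hQ : Ge q m Q) : Ge q (n + m) (P * Q) := by
  intro v hv
  obtain ⟨a, b, rfl, ha, hb⟩ := co_mul_ne hv
  rw [vw_append]
  exact Nat.add_le_add (hP a ha) (hQ b hb)

theorem Ge.add {q n : ℕ} {P Q : AY} (hP : Ge q n P) (hQ : Ge q n Q) : Ge q n (P + Q) := by
  intro v hv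
  rw [co_add] at hv
  by_cases h : co P v = 0
  · rw [h, zero_add] at hv; exact hQ v hv
  · exact hP v h

theorem Ge.mono {q n m : ℕ} {P : AY} (hP : Ge q n P) (h : m ≤ n) : Ge q m P :=
  fun v hv => h.trans (hP v hv)

theorem lext_wd {V : Type} [AddCommGroup V] [Module ℚ V] (F : List α → V) (l : List α) :
    lext F (wd l) = F l := by
  unfold lext wd
  rw [MonoidAlgebra.of_apply]
  simp [MonoidAlgebra.coeffLinearEquiv]

theorem E_ge {q n m : ℕ} {E : A →ₗ[ℚ] AY →ₗ[ℚ] AY}
    (hE : ∀ (q : ℕ) (u : List (Fin 2)) (l l' : List ℕ), co (E (wd u) (wd l)) l' ≠ 0 →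
      vw q l' = cw q u + vw q l)
    {f : A} {g : AY} (hf : ∀ u, co f u ≠ 0 → n ≤ cw q u) (hg : Ge q m g) :
    Ge q (n + m) (E f g) := by
  intro v hv
  rw [expand f, expand g, map_sum, co_sum] at hv
  obtain ⟨a, _, ha⟩ := Finset.exists_ne_zero_of_sum_ne_zero hv
  rw [map_sum, LinearMap.sum_apply, co_sum] at ha
  obtain ⟨b, _, hb⟩ := Finset.exists_ne_zero_of_sum_ne_zero ha
  rw [map_smul, map_smul, LinearMap.smul_apply, co_smul, co_smul] at hb
  have h1 := left_ne_zero_of_mul hb
  have h2 := right_ne_zero_of_mul hb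
  have h3 := left_ne_zero_of_mul h2
  have h4 := right_ne_zero_of_mul h2
  rw [hE q _ _ _ h4]
  exact Nat.add_le_add (hf _ h3) (hg _ h1)

/-- the value at the word `W` -/
noncomputable def ev (f : Fin 2 → A) : List (Fin 2) → A
  | [] => 1
  | i :: W => s (f i) (ev f W)

noncomputable def lead (σ : Fin 2 → AY) : List (Fin 2) → AY
  | [] => 1
  | i :: W => lead σ W * σ i

def NW (N : Fin 2 → ℕ) : List (Fin 2) → ℕ
  | [] => 0
  | i :: W => N i + NW N W

theorem ev_cons (f : Fin 2 → A) (i : Fin 2) (W : List (Fin 2)) :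
    ev f (i :: W) = s (f i) (ev f W) := rfl

theorem lead_cons (σ : Fin 2 → AY) (i : Fin 2) (W : List (Fin 2)) :
    lead σ (i :: W) = lead σ W * σ i := rfl

theorem NW_cons (N : Fin 2 → ℕ) (i : Fin 2) (W : List (Fin 2)) :
    NW N (i :: W) = N i + NW N W := rfl

theorem vec_eta {β : Type} (f : Fin 2 → β) (i : Fin 2) : (![f 0, f 1] : Fin 2 → β) i = f i := by
  fin_cases i <;> rfl

theorem Phi_wd (f : Fin 2 → A) (W : List (Fin 2)) : Phi (f 0) (f 1) (wd W) = ev f W := by
  induction W with
  | nil =>
    rw [wd_nil]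
    simp [Phi, ev]
  | cons i W ih =>
    have h : (wd (i :: W) : A) = wd [i] * wd W := by rw [← wd_append]; rfl
    rw [h]
    unfold Phi at ih ⊢
    simp only [LinearMap.comp_apply, AlgHom.toLinearMap_apply, LinearMap.applyₗ_apply_apply] at ih ⊢
    rw [map_mul, Module.End.mul_apply, ih, ev_cons]
    unfold wd
    rw [MonoidAlgebra.lift_of, FreeMonoid.lift_ofList]
    simp only [List.map_cons, List.map_nil, List.prod_cons, List.prod_nil, mul_one]
    fin_cases i <;> rfl

theorem lam_wd (σ : Fin 2 → AY) (W : List (Fin 2)) :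
    lam (σ 0) (σ 1) (wd W.reverse) = lead σ W := by
  induction W with
  | nil => rw [List.reverse_nil, wd_nil, map_one]; rfl
  | cons i W ih =>
    rw [List.reverse_cons, wd_append, map_mul, ih, lead_cons]
    unfold lam wd
    rw [MonoidAlgebra.lift_of, FreeMonoid.lift_ofList]
    simp only [List.map_cons, List.map_nil, List.prod_cons, List.prod_nil, mul_one]
    fin_cases i <;> rfl

theorem lead2_ok : TaskLead2 := by
  rintro ⟨E, hE1, hE2⟩ f σ N q hf hθ hσ hinj
  -- the letters
  have hθge : ∀ i, Ge q (N i) (θ (f i)) := by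
    intro i v hv
    by_cases h : co (θ (f i)) v = co (σ i) v
    · rw [h] at hv; exact (hσ i v hv).ge
    · exact (Nat.le_succ _).trans (hθ i v h)
  have hdge : ∀ i, Ge q (N i + 1) (θ (f i) - σ i) := by
    intro i v hv
    rw [co_sub] at hv
    exact hθ i v (fun h => hv (by rw [h, sub_self]))
  have hlead : ∀ W v, co (lead σ W) v ≠ 0 → vw q v = NW N W := by
    intro W
    induction W with
    | nil =>
      intro v hv
      unfold lead at hv
      rw [← wd_nil] at hv
      rw [← co_wd_ne hv]; rfl
    | cons i W ih =>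
      intro v hv
      rw [lead_cons] at hv
      obtain ⟨a, b, rfl, ha, hb⟩ := co_mul_ne hv
      rw [vw_append, ih a ha, hσ i b hb, NW_cons, Nat.add_comm]
  have hmain : ∀ W, Ge q (NW N W + 1) (θ (ev f W) - lead σ W) := by
    intro W
    induction W with
    | nil =>
      intro v hv
      exfalso
      apply hv
      have : θ (ev f []) = lead σ [] := by
        unfold ev lead
        rw [← wd_nil]
        unfold θ
        rw [lext_wd]
        rfl
      rw [this, sub_self, co_zero]
    | cons i W ih =>
      have hge : Ge q (NW N W) (θ (ev f W)) := by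
        have : θ (ev f W) = (θ (ev f W) - lead σ W) + lead σ W := by abel
        rw [this]
        exact (ih.mono (Nat.le_succ _)).add (fun v hv => (hlead W v hv).ge)
      have e : θ (ev f (i :: W)) - lead σ (i :: W) =
          (θ (ev f W) - lead σ W) * θ (f i) + lead σ W * (θ (f i) - σ i) + E (f i) (θ (ev f W)) := by
        have : ev f (i :: W) = s (f i) (ev f W) := rfl
        rw [this, hE1]
        have : lead σ (i :: W) = lead σ W * σ i := rfl
        rw [this]
        noncomm_ring
      rw [e]
      have hN : NW N (i :: W) = N i + NW N W := rfl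
      rw [hN]
      refine Ge.add (Ge.add ?_ ?_) ?_
      · exact (ih.mul (hθge i)).mono (by omega)
      · have h1 : Ge q (NW N W) (lead σ W) := fun v hv => (hlead W v hv).ge
        exact (h1.mul (hdge i)).mono (by omega)
      · exact (E_ge hE2 (hf i) hge).mono (by omega)
  rw [injective_iff_map_eq_zero]
  intro P hP
  by_contra hP0
  classical
  have hne : P.coeff.support.Nonempty := by
    rw [Finsupp.support_nonempty_iff]
    intro h
    exact hP0 (MonoidAlgebra.coeff_eq_zero.mp h)
  obtain ⟨m0, hm0, hmin⟩ := Finset.exists_min_image P.coeff.support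
    (fun m => NW N (FreeMonoid.toList m)) hne
  set n := NW N (FreeMonoid.toList m0) with hn
  set S := P.coeff.support.filter (fun m => NW N (FreeMonoid.toList m) = n) with hS
  -- the lowest part
  have hlow : ∑ m ∈ S, co P (FreeMonoid.toList m) • lead σ (FreeMonoid.toList m) = 0 := by
    apply ext_co
    intro v
    rw [co_zero, co_sum]
    by_cases hv : vw q v = n
    · have h1 : co (θ (Phi (f 0) (f 1) P)) v = 0 := by rw [hP, map_zero, co_zero]
      have h2 : θ (Phi (f 0) (f 1) P) = ∑ m ∈ P.coeff.support,
          co P (FreeMonoid.toList m) • θ (ev f (FreeMonoid.toList m)) := by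
        conv_lhs => rw [expand P]
        rw [map_sum, map_sum]
        refine Finset.sum_congr rfl fun m _ => ?_
        rw [map_smul, map_smul, Phi_wd]
      rw [h2, co_sum] at h1
      rw [← h1, hS, Finset.sum_filter]
      refine Finset.sum_congr rfl fun m hm => ?_
      have hd := hmain (FreeMonoid.toList m)
      by_cases hmn : NW N (FreeMonoid.toList m) = n
      · rw [if_pos hmn, co_smul, co_smul]
        congr 1
        by_contra hcon
        have := hd v (by rw [co_sub]; exact fun h => hcon (sub_eq_zero.mp h).symm)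
        omega
      · rw [if_neg hmn, co_smul]
        have hlt : n < NW N (FreeMonoid.toList m) := lt_of_le_of_ne (hmin m hm) (Ne.symm hmn)
        have hz : co (θ (ev f (FreeMonoid.toList m))) v = 0 := by
          by_contra hcon
          have hge : Ge q (NW N (FreeMonoid.toList m)) (θ (ev f (FreeMonoid.toList m))) := by
            have : θ (ev f (FreeMonoid.toList m)) =
              (θ (ev f (FreeMonoid.toList m)) - lead σ (FreeMonoid.toList m)) +
                lead σ (FreeMonoid.toList m) := by abel
            rw [this]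
            exact (hd.mono (Nat.le_succ _)).add (fun v hv => (hlead _ v hv).ge)
          have := hge v hcon
          omega
        rw [hz, mul_zero]
    · refine Finset.sum_eq_zero fun m hm => ?_
      rw [co_smul]
      have hmn : NW N (FreeMonoid.toList m) = n := (Finset.mem_filter.mp hm).2
      have hz : co (lead σ (FreeMonoid.toList m)) v = 0 := by
        by_contra hcon
        exact hv ((hlead _ v hcon).trans hmn)
      rw [hz, mul_zero]
  have hlam : lam (σ 0) (σ 1) (∑ m ∈ S, co P (FreeMonoid.toList m) •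
      wd (FreeMonoid.toList m).reverse) = 0 := by
    rw [map_sum, ← hlow]
    refine Finset.sum_congr rfl fun m _ => ?_
    rw [map_smul, lam_wd]
  have hz := (injective_iff_map_eq_zero _).mp hinj _ hlam
  have hc : co (∑ m ∈ S, co P (FreeMonoid.toList m) • wd (FreeMonoid.toList m).reverse)
      (FreeMonoid.toList m0).reverse = co P (FreeMonoid.toList m0) := by
    rw [co_sum, Finset.sum_eq_single m0]
    · rw [co_smul, co_wd, if_pos rfl, mul_one]
    · intro m _ hne'
      rw [co_smul, co_wd, if_neg, mul_zero]
      intro h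
      exact hne' (FreeMonoid.toList.injective (List.reverse_injective h))
    · intro h
      exact absurd (by rw [hS]; exact Finset.mem_filter.mpr ⟨hm0, hn.symm⟩) h
  rw [hz, co_zero] at hc
  exact (Finsupp.mem_support_iff.mp hm0) hc.symm

end Pool.Agent.H777R4.DM.Lead2
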