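import Pool.Agent.H777R4.DM.Stmts

/-! MP_ec2393_nt: task R0 -/

set_option autoImplicit false
set_option maxHeartbeats 4000000

namespace Pool.Agent.H777R4.DM.R0

open Pool.Agent.H777R4.DM

attribute [local instance 100] LieRing.ofAssociativeRing

section api
variable {α V : Type} [AddCommGroup V] [Module ℚ V]

theorem lext_wd (F : List α → V) (l : List α) : lext F (wd l) = F l := by
  simp [lext, wd]

theorem lin_ext {f g : Al α →ₗ[ℚ] V} (h : ∀ l, f (wd l) = g (wd l)) : f = g := by
  apply MonoidAlgebra.lhom_ext'
  intro m
  ext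
  simpa [wd] using h (FreeMonoid.toList m)

theorem wd_append (l l' : List α) : wd (l ++ l') = wd l * wd l' := by
  unfold wd
  rw [FreeMonoid.ofList_append, map_mul]

theorem wd_nil : wd ([] : List α) = 1 := by
  unfold wd
  rw [FreeMonoid.ofList_nil, map_one]

theorem wd_cons (a : α) (l : List α) : wd (a :: l) = wd [a] * wd l := by
  rw [← wd_append]
  rfl

theorem co_wd [DecidableEq α] (l l' : List α) : co (wd l) l' = if l = l' then 1 else 0 := by
  unfold co wd
  by_cases h : l = l'
  · subst h
    simp
  · rw [if_neg h]
    simp [Finsupp.single_apply, h]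

end api

/-- coefficient as a linear map -/
noncomputable def coL {α : Type} (l : List α) : Al α →ₗ[ℚ] ℚ :=
  (Finsupp.lapply (FreeMonoid.ofList l)) ∘ₗ (MonoidAlgebra.coeffLinearEquiv ℚ).toLinearMap

theorem coL_apply {α : Type} (l : List α) (P : Al α) : coL l P = co P l := rfl

/-- the derivation with `x₀ ↦ 1`, `x₁ ↦ 0` -/
noncomputable def d0W : List (Fin 2) → A
  | [] => 0
  | i :: u => (if i = 1 then 0 else wd u) + x i * d0W u

noncomputable def d0 : A →ₗ[ℚ] A := lext d0W

theorem d0_wd (u : List (Fin 2)) : d0 (wd u) = d0W u := lext_wd _ _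

theorem d0W_append (u u' : List (Fin 2)) :
    d0W (u ++ u') = d0W u * wd u' + wd u * d0W u' := by
  induction u with
  | nil => simp [d0W, wd_nil]
  | cons i u ih =>
    rw [List.cons_append, d0W, d0W, ih, wd_append, wd_cons i u]
    by_cases h : i = 1
    · simp only [h, if_true, x]
      noncomm_ring
    · simp only [h, if_false, x]
      noncomm_ring

theorem d0_mul (P Q : A) : d0 (P * Q) = d0 P * Q + P * d0 Q := by
  have h1 : ∀ l : List (Fin 2), ∀ Q : A, d0 (wd l * Q) = d0 (wd l) * Q + wd l * d0 Q := by
    intro l Q
    have h2 : d0 ∘ₗ LinearMap.mulLeft ℚ (wd l : A) =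
        LinearMap.mulLeft ℚ (d0 (wd l)) + (LinearMap.mulLeft ℚ (wd l : A)) ∘ₗ d0 := by
      apply lin_ext
      intro l'
      simp only [LinearMap.comp_apply, LinearMap.add_apply, LinearMap.mulLeft_apply]
      rw [← wd_append, d0_wd, d0_wd, d0_wd, d0W_append]
    have := congrArg (fun f => f Q) h2
    simpa using this
  have h3 : d0 ∘ₗ LinearMap.mulRight ℚ Q =
      (LinearMap.mulRight ℚ Q) ∘ₗ d0 + LinearMap.mulRight ℚ (d0 Q) := by
    apply lin_ext
    intro l
    simp only [LinearMap.comp_apply, LinearMap.add_apply, LinearMap.mulRight_apply]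
    exact h1 l Q
  have := congrArg (fun f => f P) h3
  simpa using this

/-- augmentation -/
noncomputable def aug : A →ₐ[ℚ] ℚ :=
  MonoidAlgebra.lift ℚ ℚ (FreeMonoid (Fin 2)) (FreeMonoid.lift fun _ => 0)

theorem aug_wd (u : List (Fin 2)) : aug (wd u) = if u = [] then 1 else 0 := by
  cases u with
  | nil => simp [wd_nil]
  | cons i u =>
    rw [wd_cons, map_mul]
    have : aug (wd [i]) = 0 := by
      unfold aug wd
      rw [MonoidAlgebra.lift_of, FreeMonoid.lift_apply]
      simp
    rw [this]
    simp

theorem aug_d0 (P : A) : aug (d0 P) = co P [0] := by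
  have h : aug.toLinearMap ∘ₗ d0 = coL [0] := by
    apply lin_ext
    intro u
    rw [LinearMap.comp_apply, d0_wd, coL_apply, co_wd]
    cases u with
    | nil => simp [d0W]
    | cons i u =>
      rw [d0W]
      have h0 : aug (x i) = 0 := by
        unfold x
        rw [aug_wd]
        simp
      rw [AlgHom.toLinearMap_apply, map_add, map_mul, h0, zero_mul, add_zero]
      by_cases hi : i = 1
      · simp [hi]
      · have hi0 : i = 0 := by omega
        subst hi0
        simp only [Fin.zero_eq_one_iff, OfNat.ofNat_ne_one, if_false, aug_wd]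
        by_cases hu : u = []
        · simp [hu]
        · simp [hu]
  have := congrArg (fun f => f P) h
  simpa [coL_apply] using this

theorem d0_lie (ψ : A) (h : ψ ∈ LieX) : ∃ c : ℚ, d0 ψ = c • (1 : A) := by
  induction h using LieSubalgebra.lieSpan_induction with
  | mem y hy =>
    rcases hy with rfl | hy
    · exact ⟨1, by simp [x, d0_wd, d0W, wd_nil]⟩
    · rw [Set.mem_singleton_iff] at hy
      subst hy
      exact ⟨0, by simp [x, d0_wd, d0W]⟩
  | zero => exact ⟨0, by simp⟩
  | add y z _ _ hy hz =>
    obtain ⟨a, ha⟩ := hy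
    obtain ⟨b, hb⟩ := hz
    exact ⟨a + b, by rw [map_add, ha, hb, add_smul]⟩
  | smul c y _ hy =>
    obtain ⟨a, ha⟩ := hy
    exact ⟨c * a, by rw [map_smul, ha, smul_smul]⟩
  | lie y z _ _ hy hz =>
    obtain ⟨a, ha⟩ := hy
    obtain ⟨b, hb⟩ := hz
    refine ⟨0, ?_⟩
    rw [LieRing.of_associative_ring_bracket, map_sub, d0_mul, d0_mul, ha, hb]
    simp only [smul_mul_assoc, mul_smul_comm, one_mul, mul_one, zero_smul]
    abel

theorem d0_dm (ψ : A) (h : ψ ∈ LieX) (h0 : co ψ [0] = 0) : d0 ψ = 0 := by
  obtain ⟨c, hc⟩ := d0_lie ψ h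
  have h1 := aug_d0 ψ
  rw [hc, h0, map_smul, map_one, smul_eq_mul, mul_one] at h1
  rw [hc, h1, zero_smul]

/-! ### words -/

theorem strip_rep (m : ℕ) : strip (List.replicate m 0) = ([], m) := by
  induction m with
  | zero => rfl
  | succ m ih =>
    rw [List.replicate_succ, strip, ih]
    simp

theorem strip_word (v : List ℕ) (m : ℕ) : strip (wordX v ++ List.replicate m 0) = (v, m) := by
  induction v with
  | nil => simpa [wordX] using strip_rep m
  | cons k v ih =>
    have h1 : ∀ k : ℕ, strip (List.replicate k 0 ++ 1 :: (wordX v ++ List.replicate m 0)) =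
        (k :: v, m) := by
      intro k
      induction k with
      | zero =>
        simp only [List.replicate_zero, List.nil_append]
        rw [strip, ih]
        simp
      | succ k ihk =>
        rw [List.replicate_succ, List.cons_append, strip, ihk]
        simp
    have h2 : wordX (k :: v) ++ List.replicate m 0 =
        List.replicate k 0 ++ 1 :: (wordX v ++ List.replicate m 0) := by
      simp [wordX]
    rw [h2, h1]

theorem word_strip (u : List (Fin 2)) :
    u = wordX (strip u).1 ++ List.replicate (strip u).2 0 := by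
  induction u with
  | nil => simp [strip, wordX]
  | cons i u ih =>
    rw [strip]
    by_cases hi : i = 1
    · simp only [hi, if_true, wordX, List.replicate_zero, List.nil_append, List.cons_append]
      rw [← ih]
    · have hi0 : i = 0 := by omega
      subst hi0
      simp only [Fin.zero_eq_one_iff, OfNat.ofNat_ne_one, if_false]
      cases h : (strip u).1 with
      | nil =>
        rw [h] at ih
        simp only [wordX, List.nil_append] at ih ⊢
        rw [List.replicate_succ, ← ih]
      | cons a l =>
        rw [h] at ih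
        simp only [wordX] at ih ⊢
        rw [List.replicate_succ, List.cons_append, List.cons_append, ← ih]

/-- `y`-words to `x`-words -/
noncomputable def Xm : AY →ₗ[ℚ] A := lext fun v => wd (wordX v)

theorem Xm_wd (v : List ℕ) : Xm (wd v) = wd (wordX v) := lext_wd _ _

theorem wordX_append (v v' : List ℕ) : wordX (v ++ v') = wordX v ++ wordX v' := by
  induction v with
  | nil => rfl
  | cons k v ih => simp [wordX, ih]

theorem Xm_mul (v : List ℕ) (P : AY) : Xm (wd v * P) = wd (wordX v) * Xm P := by
  have h : Xm ∘ₗ LinearMap.mulLeft ℚ (wd v : AY) =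
      LinearMap.mulLeft ℚ (wd (wordX v) : A) ∘ₗ Xm := by
    apply lin_ext
    intro l
    simp only [LinearMap.comp_apply, LinearMap.mulLeft_apply]
    rw [← wd_append, Xm_wd, Xm_wd, wordX_append, wd_append]
  have := congrArg (fun f => f P) h
  simpa using this

theorem d0W_rep (m : ℕ) : d0W (List.replicate m 0) = (m : ℚ) • wd (List.replicate (m - 1) 0) := by
  induction m with
  | zero => simp [d0W]
  | succ m ih =>
    rw [List.replicate_succ, d0W, ih]
    simp only [Fin.zero_eq_one_iff, OfNat.ofNat_ne_one, if_false, Nat.add_sub_cancel]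
    rw [x, mul_smul_comm, ← wd_append]
    cases m with
    | zero => simp
    | succ m =>
      simp only [Nat.add_sub_cancel]
      have : ([0] : List (Fin 2)) ++ List.replicate m 0 = List.replicate (m + 1) 0 := by
        rw [List.replicate_succ]
        rfl
      rw [this]
      push_cast
      module

theorem d0W_word (v : List ℕ) : d0W (wordX v) = Xm (dlW v) := by
  induction v with
  | nil => simp [wordX, d0W, dlW]
  | cons k v ih =>
    rw [wordX, dlW, map_add, map_smul, Xm_wd, Xm_mul, d0W_append, d0W_rep, d0W, ih]
    simp only [if_true, zero_add, wordX, x]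
    rw [smul_mul_assoc, ← wd_append, wd_append (List.replicate k 0) [1], mul_assoc]

theorem run_wd (k : ℕ) (u : List (Fin 2)) :
    run k (wd u) = if (strip u).2 = k then wd (strip u).1 else 0 := lext_wd _ _

theorem run_Xm (k m : ℕ) (P : AY) :
    run k (Xm P * wd (List.replicate m 0)) = if m = k then P else 0 := by
  have h : run k ∘ₗ LinearMap.mulRight ℚ (wd (List.replicate m 0) : A) ∘ₗ Xm =
      if m = k then LinearMap.id else 0 := by
    apply lin_ext
    intro l
    simp only [LinearMap.comp_apply, LinearMap.mulRight_apply]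
    rw [Xm_wd, ← wd_append, run_wd, strip_word]
    by_cases hm : m = k <;> simp [hm]
  have := congrArg (fun f => f P) h
  simp only [LinearMap.comp_apply, LinearMap.mulRight_apply] at this
  rw [this]
  by_cases hm : m = k <;> simp [hm]

theorem dl_wd (v : List ℕ) : dl (wd v) = dlW v := lext_wd _ _

theorem run_d0 (k : ℕ) (P : A) :
    run k (d0 P) = dl (run k P) + ((k : ℚ) + 1) • run (k + 1) P := by
  have h : run k ∘ₗ d0 = dl ∘ₗ run k + ((k : ℚ) + 1) • run (k + 1) := by
    apply lin_ext
    intro u
    simp only [LinearMap.comp_apply, LinearMap.add_apply, LinearMap.smul_apply]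
    obtain ⟨v, m, rfl⟩ : ∃ v m, u = wordX v ++ List.replicate m 0 :=
      ⟨_, _, word_strip u⟩
    rw [run_wd, run_wd, strip_word, d0_wd, d0W_append, d0W_rep, d0W_word, mul_smul_comm,
      ← Xm_wd, map_add, map_smul, run_Xm, run_Xm]
    simp only
    by_cases h1 : m = k
    · subst h1
      simp only [if_true, dl_wd]
      cases m with
      | zero => simp
      | succ m => simp
    · cases m with
      | zero =>
        simp only [h1, if_false, Nat.cast_zero, zero_smul, map_zero, add_zero, zero_add]
        simp
      | succ m =>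
        simp only [h1, if_false, Nat.add_sub_cancel, map_zero, zero_add]
        by_cases h2 : m = k
        · subst h2
          simp
        · have h3 : ¬ (m + 1 = k + 1) := by omega
          simp [h2]
  have := congrArg (fun f => f P) h
  simpa using this

theorem taskR0 : TaskR0 := by
  intro ψ hψ h0 k
  have h1 := run_d0 k ψ
  rw [d0_dm ψ hψ h0, map_zero] at h1
  exact eq_neg_of_add_eq_zero_right h1.symm

end Pool.Agent.H777R4.DM.R0
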