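import Mathlib

/-! MP_ec2393_nt (double shuffle Lie algebra): definitions and task statements.
Goal: any two linearly independent elements of `dm` generate a free Lie algebra (Ihara bracket). -/

set_option autoImplicit false

namespace Pool.Agent.H777R4.DM

attribute [local instance 100] LieRing.ofAssociativeRing

/-- The free associative algebra `ℚ⟨α⟩` (basis: the words, i.e. lists of letters). -/
abbrev Al (α : Type) : Type := MonoidAlgebra ℚ (FreeMonoid α)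

/-- The word `l` as an element of `ℚ⟨α⟩`. -/
noncomputable def wd {α : Type} (l : List α) : Al α :=
  MonoidAlgebra.of ℚ (FreeMonoid α) (FreeMonoid.ofList l)

/-- The coefficient `(P | l)` of the word `l`. -/
noncomputable def co {α : Type} (P : Al α) (l : List α) : ℚ := P.coeff (FreeMonoid.ofList l)

/-- Linear extension of a function on words. -/
noncomputable def lext {α V : Type} [AddCommGroup V] [Module ℚ V] (F : List α → V) : Al α →ₗ[ℚ] V :=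
  (Finsupp.linearCombination ℚ (fun m : FreeMonoid α => F (FreeMonoid.toList m))) ∘ₗ
    (MonoidAlgebra.coeffLinearEquiv ℚ).toLinearMap

/-- `ℚ⟨x₀, x₁⟩`. -/
abbrev A : Type := Al (Fin 2)

/-- The letters `x₀, x₁`. -/
noncomputable def x (i : Fin 2) : A := wd [i]

/-- `D_f` on words (Leibniz rule, first letter first). -/
noncomputable def derW (f : A) : List (Fin 2) → A
  | [] => 0
  | i :: u => (if i = 1 then x 1 * f - f * x 1 else 0) * wd u + x i * derW f u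

/-- The derivation `D_f` with `D_f x₀ = 0`, `D_f x₁ = [x₁, f]`. -/
noncomputable def der (f : A) : A →ₗ[ℚ] A := lext (derW f)

/-- The Ihara bracket. -/
noncomputable def ihara (f g : A) : A := f * g - g * f + der f g - der g f

/-- The free Lie algebra `Lie[x₀, x₁]` inside `ℚ⟨x₀, x₁⟩`. -/
noncomputable def LieX : LieSubalgebra ℚ A := LieSubalgebra.lieSpan ℚ A {x 0, x 1}

/-- `ℚ⟨Y⟩`; the letter `k : ℕ` stands for `y_{k+1}`. -/
abbrev AY : Type := Al ℕ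

/-- The word `x₀^{k₁} x₁ ⋯ x₀^{k_r} x₁` of `[k₁, …, k_r]` (that is, of `y_{k₁+1} ⋯ y_{k_r+1}`). -/
def wordX : List ℕ → List (Fin 2)
  | [] => []
  | k :: v => List.replicate k 0 ++ 1 :: wordX v

/-- `ℚ⟨Y⟩ ⊗ ℚ⟨Y⟩`, with basis the pairs of words. -/
abbrev AYY : Type := MonoidAlgebra ℚ (FreeMonoid ℕ × FreeMonoid ℕ)

/-- `P ↦ P ⊗ 1`. -/
noncomputable def inl : AY →ₐ[ℚ] AYY :=
  MonoidAlgebra.mapDomainAlgHom ℚ ℚ (MonoidHom.inl (FreeMonoid ℕ) (FreeMonoid ℕ))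

/-- `P ↦ 1 ⊗ P`. -/
noncomputable def inr : AY →ₐ[ℚ] AYY :=
  MonoidAlgebra.mapDomainAlgHom ℚ ℚ (MonoidHom.inr (FreeMonoid ℕ) (FreeMonoid ℕ))

/-- The stuffle coproduct on the letter `y_{k+1}`. -/
noncomputable def starL (k : ℕ) : AYY :=
  inl (wd [k]) + inr (wd [k]) + ∑ i ∈ Finset.range k, inl (wd [i]) * inr (wd [k - 1 - i])

/-- The stuffle coproduct `Δ_*`. -/
noncomputable def starΔ : AY →ₐ[ℚ] AYY :=
  MonoidAlgebra.lift ℚ AYY (FreeMonoid ℕ) (FreeMonoid.lift starL)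

/-- The correction term of `ψ_*`. -/
noncomputable def corr (ψ : A) (v : List ℕ) : ℚ :=
  if 2 ≤ v.length ∧ v = List.replicate v.length 0 then
    (-1) ^ (v.length - 1) / (v.length : ℚ) * co ψ (List.replicate (v.length - 1) 0 ++ [1]) else 0

/-- The double shuffle Lie algebra `dm`. -/
structure IsDM (ψ : A) : Prop where
  mem : ψ ∈ LieX
  c0 : co ψ [0] = 0
  c1 : co ψ [1] = 0
  c01 : co ψ [0, 1] = 0
  star : ∃ P : AY, (∀ v, co P v = co ψ (wordX v) + corr ψ v) ∧ starΔ P = inl P + inr P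

/-! ### auxiliary definitions -/

/-- The (un)shuffle coproduct: all letters primitive. -/
noncomputable def shΔ : AY →ₐ[ℚ] AYY :=
  MonoidAlgebra.lift ℚ AYY (FreeMonoid ℕ) (FreeMonoid.lift (fun k : ℕ => inl (wd [k]) + inr (wd [k])))

/-- shuffle-primitive elements of `ℚ⟨Y⟩` -/
def Prim (P : AY) : Prop := shΔ P = inl P + inr P

/-- `x₀^{a₁} x₁ ⋯ x₀^{a_r} x₁ x₀^k ↦ ([a₁, …, a_r], k)` -/
def strip : List (Fin 2) → List ℕ × ℕ
  | [] => ([], 0)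
  | i :: u => if i = 1 then (0 :: (strip u).1, (strip u).2) else
      match (strip u).1 with
      | [] => ([], (strip u).2 + 1)
      | a :: l => ((a + 1) :: l, (strip u).2)

/-- forget trailing `x₀`s -/
noncomputable def θ : A →ₗ[ℚ] AY := lext (fun u => wd (strip u).1)

/-- the part with exactly `k` trailing `x₀`s -/
noncomputable def run (k : ℕ) : A →ₗ[ℚ] AY := lext (fun u => if (strip u).2 = k then wd (strip u).1 else 0)

/-- weights -/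
def vw (q : ℕ) (v : List ℕ) : ℕ := (v.map (fun a => a + q)).sum
def cw (q : ℕ) (u : List (Fin 2)) : ℕ := (u.map (fun i => if i = 1 then q else 1)).sum

/-- `g ↦ f g + D_f g` -/
noncomputable def s (f : A) : Module.End ℚ A := LinearMap.mulLeft ℚ f + der f

/-- `P ↦ P(s_f, s_g) 1` -/
noncomputable def Phi (f g : A) : A →ₗ[ℚ] A :=
  (LinearMap.applyₗ (1 : A)) ∘ₗ
    (MonoidAlgebra.lift ℚ (Module.End ℚ A) (FreeMonoid (Fin 2)) (FreeMonoid.lift ![s f, s g])).toLinearMap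

/-- `P ↦ P(F, G)` -/
noncomputable def lam (F G : AY) : A →ₐ[ℚ] AY :=
  MonoidAlgebra.lift ℚ AY (FreeMonoid (Fin 2)) (FreeMonoid.lift ![F, G])

/-- derivation `y_{k+1} ↦ k y_k` on words of `ℚ⟨Y⟩` -/
noncomputable def dlW : List ℕ → AY
  | [] => 0
  | k :: v => (k : ℚ) • wd ((k - 1) :: v) + wd [k] * dlW v
noncomputable def dl : AY →ₗ[ℚ] AY := lext dlW

/-! ### tasks -/

/-- length homogeneous -/
def LenHom {α : Type} (P : Al α) (r : ℕ) : Prop := ∀ v, co P v ≠ 0 → v.length = r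

def TaskKL1 : Prop := ∀ (F G : AY) (r t : ℕ), 1 ≤ r → 1 ≤ t → LenHom F r → LenHom G t → Prim F → Prim G →
  F ≠ 0 → G ≠ 0 → (∀ c : ℚ, F ≠ c • G) → ¬ ∃ e, F = G * e

def TaskKL2 : Prop := ∀ (F G : AY) (r t : ℕ), 1 ≤ r → 1 ≤ t → LenHom F r → LenHom G t →
  F ≠ 0 → G ≠ 0 → (¬ ∃ e, F = G * e) → (¬ ∃ e, G = F * e) → Function.Injective (lam F G)

def TaskLead1 : Prop := ∃ E : A →ₗ[ℚ] AY →ₗ[ℚ] AY, (∀ f g, θ (s f g) = θ g * θ f + E f (θ g)) ∧
  ∀ (q : ℕ) (u : List (Fin 2)) (l l' : List ℕ), co (E (wd u) (wd l)) l' ≠ 0 → vw q l' = cw q u + vw q l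

def TaskLead2 : Prop := TaskLead1 → ∀ (f : Fin 2 → A) (σ : Fin 2 → AY) (N : Fin 2 → ℕ) (q : ℕ),
  (∀ i u, co (f i) u ≠ 0 → N i + 1 ≤ cw q u) →
  (∀ i v, co (θ (f i)) v ≠ co (σ i) v → N i + 1 ≤ vw q v) →
  (∀ i v, co (σ i) v ≠ 0 → vw q v = N i) →
  Function.Injective (lam (σ 0) (σ 1)) → Function.Injective (Phi (f 0) (f 1))

def TaskPrim0 : Prop := ∀ (ψ : A), IsDM ψ → ∀ r : ℕ, 1 ≤ r → (∀ u, co ψ u ≠ 0 → r ≤ u.count 1) →
  ∀ F : AY, (∀ v, co F v = if v.length = r then co ψ (wordX v) else 0) → Prim F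

def TaskDelta : Prop := ∀ P : AY, Prim P → Prim (dl P)

def TaskR0 : Prop := ∀ ψ ∈ LieX, co ψ [0] = 0 → ∀ k : ℕ, ((k : ℚ) + 1) • run (k + 1) ψ = - dl (run k ψ)

def TaskTwoA : Prop := ∀ F : AY, Prim F → (∃ v, co F v ≠ 0 ∧ ∃ a ∈ v, 2 ≤ a) →
  ∃ (a : ℕ) (v : List ℕ), 2 ≤ a ∧ co F (a :: v) ≠ 0

def TaskTwoB : Prop := ∀ ψ ∈ LieX, ∀ u : List (Fin 2), co ψ u.reverse = (-1) ^ (u.length + 1) * co ψ u

def TaskTwoC : Prop := ∀ ψ ∈ LieX, ∀ i : Fin 2, co ψ [i] = 0 → ∀ w : List (Fin 2),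
  ∑ j ∈ Finset.range (w.length + 1), co ψ (w.insertIdx j i) = 0

def TaskTwoD : Prop := TaskTwoA → TaskTwoB → TaskTwoC → ∀ ψ ∈ LieX, co ψ [0] = 0 → co ψ [1] = 0 →
  (∀ u, co ψ u ≠ 0 → 3 ≤ u.length) → ∀ r : ℕ, 1 ≤ r → (∀ u, co ψ u ≠ 0 → r ≤ u.count 1) →
  (∃ u, co ψ u ≠ 0 ∧ u.count 1 = r) →
  ∀ F : AY, (∀ v, co F v = if v.length = r then co ψ (wordX v) else 0) → Prim F →
  ∃ (k : ℕ) (v : List ℕ), 2 ≤ k ∧ v.length = r ∧ co ψ (wordX v ++ List.replicate k 0) ≠ 0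

def TaskSmall : Prop := TaskTwoB → TaskTwoC → ∀ ψ : A, IsDM ψ → ∀ u, co ψ u ≠ 0 → 3 ≤ u.length ∧ 1 ≤ u.count 1

def TaskShear : Prop := ∀ (f g : A) (κ : ℚ), Function.Injective (Phi f (g - κ • f)) →
  Function.Injective (Phi f g)

def TaskFinal : Prop := ∀ f g : A, f ∈ LieX → g ∈ LieX → Function.Injective (Phi f g) →
  ∃ φ : LieX →ₗ[ℚ] A, Function.Injective φ ∧
    (∀ P : LieX, (P : A) = x 0 → φ P = f) ∧ (∀ P : LieX, (P : A) = x 1 → φ P = g) ∧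
    ∀ P Q : LieX, φ ⁅P, Q⁆ = ihara (φ P) (φ Q)

/-- the part of `ψ` of weight (length) `w` -/
noncomputable def comp (w : ℕ) : A →ₗ[ℚ] A := lext (fun u => if u.length = w then wd u else 0)

def TaskComp : Prop := ∀ (ψ : A) (w : ℕ), IsDM ψ → IsDM (comp w ψ)

def TaskLow : Prop := ∀ (f : Fin 2 → A) (w : Fin 2 → ℕ), (∀ i u, co (f i) u ≠ 0 → w i ≤ u.length) →
  Function.Injective (Phi (comp (w 0) (f 0)) (comp (w 1) (f 1))) → Function.Injective (Phi (f 0) (f 1))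

/-- the homogeneous case, to be assembled from the tasks -/
def Homog : Prop := ∀ (ψ₁ ψ₂ : A) (w₁ w₂ : ℕ), IsDM ψ₁ → IsDM ψ₂ → LenHom ψ₁ w₁ → LenHom ψ₂ w₂ →
  (∀ a b : ℚ, a • ψ₁ + b • ψ₂ = 0 → a = 0 ∧ b = 0) → Function.Injective (Phi ψ₁ ψ₂)

end Pool.Agent.H777R4.DM
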