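import Mathlib
import Pool.Agent.H777R4.DM.Stmts

/-! helper116: tasks SMALL and SHEAR of project H777-DSH. -/

set_option autoImplicit false

namespace Pool.Agent.H777R4.DM

attribute [local instance 100] LieRing.ofAssociativeRing


lemma insertIdx_replicate_zero (n : ℕ) : ∀ j : ℕ, j ≤ n →
    (List.replicate n (0 : Fin 2)).insertIdx j 0 = List.replicate (n + 1) 0 := by
  induction n with
  | zero =>
    intro j hj
    obtain rfl : j = 0 := by omega
    simp
  | succ n ih =>
    intro j hj
    cases j with
    | zero => simp [List.replicate_succ]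
    | succ j =>
      rw [List.replicate_succ, List.insertIdx_succ_cons, ih j (by omega)]
      rfl

theorem taskSmall_proof : TaskSmall := by
  intro hB hC ψ hψ u hu
  have h0 : co ψ [] = 0 := by
    have h := hB ψ hψ.mem []
    simp at h
    linarith
  have hzero : ∀ n : ℕ, co ψ (List.replicate n 0) = 0 := by
    intro n
    cases n with
    | zero => simpa using h0
    | succ n =>
      have h := hC ψ hψ.mem 0 hψ.c0 (List.replicate n 0)
      rw [List.length_replicate] at h
      rw [Finset.sum_congr rfl (fun j hj => by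
        rw [insertIdx_replicate_zero n j (by
          have := Finset.mem_range.1 hj
          omega)])] at h
      rw [Finset.sum_const, Finset.card_range, nsmul_eq_mul] at h
      rcases mul_eq_zero.1 h with h | h
      · exact absurd h (by positivity)
      · exact h
  have hcount : 1 ≤ u.count 1 := by
    by_contra hcon
    have hc : u.count 1 = 0 := by omega
    have hmem : (1 : Fin 2) ∉ u := List.count_eq_zero.1 hc
    have hall : ∀ b ∈ u, b = (0 : Fin 2) := by
      intro b hb
      have hb1 : b ≠ 1 := by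
        rintro rfl
        exact hmem hb
      omega
    have hrep : u = List.replicate u.length 0 := List.eq_replicate_iff.2 ⟨rfl, hall⟩
    apply hu
    rw [hrep]
    exact hzero _
  refine ⟨?_, hcount⟩
  by_contra hlen
  have h11 : co ψ [1, 1] = 0 := by
    have h := hC ψ hψ.mem 1 hψ.c1 [1]
    simp [Finset.sum_range_succ] at h
    linarith
  have h10 : co ψ [1, 0] = 0 := by
    have h := hB ψ hψ.mem [0, 1]
    rw [hψ.c01] at h
    simpa using h
  have h2 : ∀ i j : Fin 2, co ψ [i, j] = 0 := by
    intro i j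
    match i, j with
    | 0, 0 => exact hzero 2
    | 0, 1 => exact hψ.c01
    | 1, 0 => exact h10
    | 1, 1 => exact h11
  have h1 : ∀ i : Fin 2, co ψ [i] = 0 := by
    intro i
    match i with
    | 0 => exact hψ.c0
    | 1 => exact hψ.c1
  apply hu
  match u, hlen with
  | [], _ => exact h0
  | [i], _ => exact h1 i
  | [i, j], _ => exact h2 i j
  | _ :: _ :: _ :: v, h => exact absurd (by simp only [List.length_cons]; omega) h



lemma derW_add (f g : A) (u : List (Fin 2)) : derW (f + g) u = derW f u + derW g u := by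
  induction u with
  | nil => simp only [derW, add_zero]
  | cons i u ih =>
    rw [derW, derW, derW, ih]
    split_ifs
    · rw [mul_add (x 1), add_mul, mul_add (x i)]
      rw [show x 1 * f + x 1 * g - (f * x 1 + g * x 1) = (x 1 * f - f * x 1) + (x 1 * g - g * x 1) by abel]
      rw [add_mul]
      abel
    · rw [zero_mul, zero_add, zero_add, zero_add, mul_add]

lemma derW_smul (c : ℚ) (f : A) (u : List (Fin 2)) : derW (c • f) u = c • derW f u := by
  induction u with
  | nil => simp only [derW, smul_zero]
  | cons i u ih =>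
    rw [derW, derW, ih]
    split_ifs
    · rw [mul_smul_comm, mul_smul_comm, smul_mul_assoc, smul_add, ← smul_sub, smul_mul_assoc]
    · rw [mul_smul_comm, zero_mul, zero_add, zero_add]

lemma lext_wd {α V : Type} [AddCommGroup V] [Module ℚ V] (F : List α → V) (l : List α) :
    lext F (wd l) = F l := by
  simp [lext, wd, MonoidAlgebra.of]

lemma lext_apply {α V : Type} [AddCommGroup V] [Module ℚ V] (F : List α → V) (P : Al α) :
    lext F P = P.coeff.sum (fun m c => c • F (FreeMonoid.toList m)) := by
  simp [lext, Finsupp.linearCombination_apply]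

lemma der_add (f g : A) : der (f + g) = der f + der g := by
  apply LinearMap.ext
  intro P
  rw [LinearMap.add_apply, der, der, der, lext_apply, lext_apply, lext_apply]
  rw [← Finsupp.sum_add]
  refine Finsupp.sum_congr fun m _ => ?_
  rw [derW_add, smul_add]

lemma der_smul (c : ℚ) (f : A) : der (c • f) = c • der f := by
  apply LinearMap.ext
  intro P
  rw [LinearMap.smul_apply, der, der, lext_apply, lext_apply]
  rw [Finsupp.smul_sum]
  refine Finsupp.sum_congr fun m _ => ?_
  rw [derW_smul, smul_comm]

lemma s_add (f g : A) : s (f + g) = s f + s g := by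
  apply LinearMap.ext
  intro P
  rw [s, s, s, der_add]
  rw [LinearMap.add_apply, LinearMap.add_apply, LinearMap.add_apply, LinearMap.add_apply,
    LinearMap.add_apply, LinearMap.mulLeft_apply, LinearMap.mulLeft_apply, LinearMap.mulLeft_apply, add_mul]
  abel

lemma s_smul (c : ℚ) (f : A) : s (c • f) = c • s f := by
  apply LinearMap.ext
  intro P
  rw [s, s, der_smul]
  rw [LinearMap.add_apply, LinearMap.smul_apply, LinearMap.smul_apply, LinearMap.add_apply,
    LinearMap.mulLeft_apply, LinearMap.mulLeft_apply, smul_mul_assoc, smul_add]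



/-- the shear `X0 ↦ X0`, `X1 ↦ X1 + κ X0` -/
noncomputable def shear (κ : ℚ) : A →ₐ[ℚ] A :=
  MonoidAlgebra.lift ℚ A (FreeMonoid (Fin 2)) (FreeMonoid.lift ![x 0, x 1 + κ • x 0])

lemma lift_x {B : Type} [Ring B] [Algebra ℚ B] (φ : Fin 2 → B) (i : Fin 2) :
    MonoidAlgebra.lift ℚ B (FreeMonoid (Fin 2)) (FreeMonoid.lift φ) (x i) = φ i := by
  have h : x i = MonoidAlgebra.of ℚ (FreeMonoid (Fin 2)) (FreeMonoid.of i) := rfl
  rw [h, MonoidAlgebra.lift_of, FreeMonoid.lift_eval_of]

lemma algHom_ext_x {B : Type} [Ring B] [Algebra ℚ B] {F G : A →ₐ[ℚ] B}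
    (h0 : F (x 0) = G (x 0)) (h1 : F (x 1) = G (x 1)) : F = G := by
  apply MonoidAlgebra.algHom_ext'
  · apply FreeMonoid.hom_eq
    intro i
    match i with
    | 0 => exact h0
    | 1 => exact h1
  · exact Subsingleton.elim _ _

lemma shear_x0 (κ : ℚ) : shear κ (x 0) = x 0 := by
  rw [shear, lift_x]
  rfl

lemma shear_x1 (κ : ℚ) : shear κ (x 1) = x 1 + κ • x 0 := by
  rw [shear, lift_x]
  rfl

lemma shear_comp (κ : ℚ) : (shear (-κ)).comp (shear κ) = AlgHom.id ℚ A := by
  apply algHom_ext_x
  · rw [AlgHom.comp_apply, shear_x0, shear_x0, AlgHom.id_apply]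
  · rw [AlgHom.comp_apply, shear_x1, map_add, map_smul, shear_x0, shear_x1, AlgHom.id_apply,
      add_assoc, ← add_smul, neg_add_cancel, zero_smul, add_zero]

lemma shear_injective (κ : ℚ) : Function.Injective (shear κ) := by
  intro P Q h
  have h2 := congrArg (shear (-κ)) h
  have h3 : ∀ R : A, shear (-κ) (shear κ R) = R := fun R => DFunLike.congr_fun (shear_comp κ) R
  rwa [h3, h3] at h2


lemma lift_shear {B : Type} [Ring B] [Algebra ℚ B] (a b : B) (κ : ℚ) (P : A) :
    MonoidAlgebra.lift ℚ B (FreeMonoid (Fin 2)) (FreeMonoid.lift ![a, b + κ • a]) P =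
      MonoidAlgebra.lift ℚ B (FreeMonoid (Fin 2)) (FreeMonoid.lift ![a, b]) (shear κ P) := by
  have h : MonoidAlgebra.lift ℚ B (FreeMonoid (Fin 2)) (FreeMonoid.lift ![a, b + κ • a]) =
      (MonoidAlgebra.lift ℚ B (FreeMonoid (Fin 2)) (FreeMonoid.lift ![a, b])).comp (shear κ) := by
    apply algHom_ext_x
    · rw [AlgHom.comp_apply, shear_x0, lift_x, lift_x]
      rfl
    · rw [AlgHom.comp_apply, shear_x1, map_add, map_smul, lift_x, lift_x, lift_x]
      rfl
  rw [h, AlgHom.comp_apply]

lemma Phi_eq (f g : A) (P : A) : Phi f g P =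
    MonoidAlgebra.lift ℚ (Module.End ℚ A) (FreeMonoid (Fin 2)) (FreeMonoid.lift ![s f, s g]) P 1 := rfl

lemma s_shear (f g : A) (κ : ℚ) : s g = s (g - κ • f) + κ • s f := by
  rw [← s_smul, ← s_add, sub_add_cancel]

lemma Phi_shear (f g : A) (κ : ℚ) (P : A) : Phi f g P = Phi f (g - κ • f) (shear κ P) := by
  rw [Phi_eq, Phi_eq, s_shear f g κ, lift_shear]

theorem taskShear_proof : TaskShear := by
  intro f g κ hinj P Q hPQ
  rw [Phi_shear f g κ P, Phi_shear f g κ Q] at hPQ
  exact shear_injective κ (hinj hPQ)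

end Pool.Agent.H777R4.DM
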