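import Pool.Agent.H777R4.DM.General
import Pool.Agent.H777R4.DM.SmallShear
import Pool.Agent.H217R3.DM.Comp
import Pool.Agent.H237R3.DM.Delta
import Pool.Agent.H28R3.DM.Low
import Pool.Agent.H337R3.Lead1
import Pool.Agent.H352.DSH.TwoC
import Pool.Agent.H428R3.DMKL2
import Pool.Agent.H50R3.DM.TwoB
import Pool.Agent.H610R3.DSH.TwoA
import Pool.Agent.H777R4.DM.Lead2
import Pool.Agent.H777R4.DM.R0
import Pool.Agent.H835R4.KL1
import Pool.Agent.H851R3.DSHFinal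
import Pool.Agent.H466R3.DM_Prim0
import Pool.Agent.H988R3.DM.TwoD

set_option autoImplicit false

namespace Pool.Agent.H777R4.DM

attribute [local instance 100] LieRing.ofAssociativeRing

theorem homog : Homog :=
  homog_of Pool.Agent.H835R4.KL1.taskKL1 Pool.Agent.H428R3.DMKL2.kl2 Pool.Agent.H337R3.Lead1.lead1
    Pool.Agent.H777R4.DM.Lead2.lead2_ok Pool.Agent.H466R3.DMPrim0.prim0
    Pool.Agent.H237R3.DM.taskDelta Pool.Agent.H777R4.DM.R0.taskR0 H777DSH.H610.taskTwoA taskTwoB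
    Pool.Agent.H352.DSH.taskTwoC Pool.Agent.H988R3.DM.taskTwoD taskSmall_proof taskShear_proof

theorem phi_injective {ψ₁ ψ₂ : A} (h₁ : IsDM ψ₁) (h₂ : IsDM ψ₂)
    (hli : LinearIndependent ℚ ![ψ₁, ψ₂]) : Function.Injective (Phi ψ₁ ψ₂) :=
  phi_inj homog Pool.Agent.H217R3.DMC.taskComp Pool.Agent.H28R3.DM.Low.low taskShear_proof h₁ h₂
    (LinearIndependent.pair_iff.mp hli)

open H851R3.DSH in
theorem phi_lie (f g : A) (P Q : A) (hP : P ∈ LieX) (hQ : Q ∈ LieX) :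
    Phi f g (P * Q - Q * P) = ihara (Phi f g P) (Phi f g Q) := by
  rw [H851R3.DSH.Phi_eq, H851R3.DSH.Phi_eq, H851R3.DSH.Phi_eq, map_sub, map_mul, map_mul]
  have h := s_comm (S f g P 1) (S f g Q 1)
  rw [← S_lie f g P hP, ← S_lie f g Q hQ] at h
  rw [h, s_one]

open H851R3.DSH in
theorem phi_x0 (f g : A) : Phi f g (x 0) = f := by rw [H851R3.DSH.Phi_eq, S_x0, s_one]

open H851R3.DSH in
theorem phi_x1 (f g : A) : Phi f g (x 1) = g := by rw [H851R3.DSH.Phi_eq, S_x1, s_one]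

end Pool.Agent.H777R4.DM
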