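import Pool.Agent.H777R4.DM.Core2

set_option autoImplicit false

namespace Pool.Agent.H777R4.DM

attribute [local instance 100] LieRing.ofAssociativeRing

lemma isDM_zero : IsDM (0 : A) := by
  refine ⟨LieX.zero_mem, co_zero _, co_zero _, co_zero _, 0, ?_, ?_⟩
  · intro v
    rw [co_zero, co_zero]
    unfold corr
    split_ifs
    · rw [co_zero]; ring
    · ring
  · rw [map_zero, map_zero, map_zero, add_zero]

lemma isDM_add {ψ₁ ψ₂ : A} (h₁ : IsDM ψ₁) (h₂ : IsDM ψ₂) : IsDM (ψ₁ + ψ₂) := by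
  have := isDM_sub h₂ h₁ (-1)
  rwa [neg_smul, one_smul, sub_neg_eq_add] at this

lemma isDM_smul {ψ : A} (h : IsDM ψ) (c : ℚ) : IsDM (c • ψ) := by
  have := isDM_sub h isDM_zero (-c)
  rwa [neg_smul, sub_neg_eq_add, zero_add] at this

lemma isDM_sum {ι : Type} (s : Finset ι) (f : ι → A) (h : ∀ i ∈ s, IsDM (f i)) :
    IsDM (∑ i ∈ s, f i) :=
  Finset.sum_induction f IsDM (fun _ _ => isDM_add) isDM_zero h

lemma prim_all (p0 : TaskPrim0) (dlt : TaskDelta) (r0 : TaskR0) {f : A} {ρ : ℕ} (hd : IsDM f)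
    (hρ : 1 ≤ ρ) (hcnt : ∀ u, co f u ≠ 0 → ρ ≤ u.count 1) : ∀ j, Prim (Fp ρ f j) := by
  intro j
  induction j with
  | zero =>
    refine p0 f hd ρ hρ hcnt _ ?_
    intro v
    rw [co_Fp, List.replicate_zero, List.append_nil]
  | succ j ih =>
    have hR : ((j : ℚ) + 1) • Fp ρ f (j + 1) = - dl (Fp ρ f j) := by
      have := congrArg (dp ρ) (r0 f hd.mem hd.c0 j)
      rw [map_smul, map_neg, dp_dl] at this
      exact this
    have h1 : Fp ρ f (j + 1) = ((j : ℚ) + 1)⁻¹ • (- dl (Fp ρ f j)) := by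
      rw [← hR, smul_smul, inv_mul_cancel₀ (by positivity), one_smul]
    rw [h1]
    exact prim_smul _ (prim_neg (dlt _ ih))

theorem dm_case (l1 : TaskLead1) (ln : TaskLeadN) (fp : TaskFreeP) (p0 : TaskPrim0) (dlt : TaskDelta)
    (tb : TaskTwoB) (r0 : TaskR0) (kb : TaskKB) (van : TaskVan)
    (ad : TaskAdMu) (shn : TaskShearN) {n r R : ℕ} {ψ : Fin n → A} {wt : Fin n → ℕ} {W : Finset ℕ}
    (hr : 1 ≤ r) (hR : R + 1 ≤ 2 * r) (hW : ∀ w ∈ W, W.card * R < w)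
    (hwt : ∀ i, wt i ∈ W) (hdm : ∀ i, IsDM (ψ i)) (hhom : ∀ i, LenHom (ψ i) (wt i))
    (hcnt : ∀ i u, co (ψ i) u ≠ 0 → r ≤ u.count 1)
    (hind : ∀ c : Fin n → ℚ, (∀ u, u.count 1 ≤ R → co (cmb ψ c) u = 0) → c = 0) :
    Function.Injective (PhiN ψ) := by
  have hd : ∀ c w, IsDM (cmw ψ wt c w) := by
    intro c w
    unfold cmw
    exact isDM_sum _ _ fun i _ => isDM_smul (hdm i) _
  refine core2 l1 ln fp r0 van ad shn hr hR hwt hhom (fun i => (hdm i).mem) (fun i => (hdm i).c0) hcnt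
    hind ?_ ?_
  · intro c w hw ρ hρr hρR hdep hu
    obtain ⟨k, hk, hkne⟩ := kb r0 tb _ ρ w (hd c w).mem (hd c w).c0 (cmw_hom hhom c w) (by omega) hdep hu
      (prim_all p0 dlt r0 (hd c w) (by omega) hdep 0)
    refine ⟨k, ?_, hkne⟩
    have h1 := hW w hw
    have h2 : W.card * ρ ≤ W.card * R := Nat.mul_le_mul_left _ hρR
    have h3 : W.card * ρ < (k + 1) * ρ := by
      have h4 : (k + 1) * ρ = ρ * k + ρ := by ring
      omega
    have := Nat.lt_of_mul_lt_mul_right h3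
    omega
  · intro c w hw ρ hρr hρR hdep
    exact prim_all p0 dlt r0 (hd c w) (by omega) hdep

end Pool.Agent.H777R4.DM
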