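import Pool.Agent.H777R4.DM.Stmts2

set_option autoImplicit false

namespace Pool.Agent.H777R4.DM

open Polynomial in
theorem taskVan : TaskVan := by
  intro W r s H hrec hs
  have key : ∀ (d l : ℕ), l + d + 1 ≤ s → ∀ Q : ℚ[X], Q.natDegree ≤ d →
      ∑ w ∈ W, (Q.eval (w : ℚ)) • H w l = 0 := by
    intro d
    induction d with
    | zero =>
      intro l hl Q hQ
      have h1 : Q = C (Q.coeff 0) := Polynomial.eq_C_of_natDegree_le_zero hQ
      rw [h1]
      simp only [eval_C]
      rw [← Finset.smul_sum, hs l (by omega), smul_zero]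
    | succ d ih =>
      intro l hl Q hQ
      have h1 : Q = C (Q.eval ((r : ℚ) + l)) + (X - C ((r : ℚ) + l)) * (Q /ₘ (X - C ((r : ℚ) + l))) := by
        rw [← Polynomial.modByMonic_X_sub_C_eq_C_eval]
        exact (Polynomial.modByMonic_add_div Q (X - C ((r : ℚ) + l))).symm
      have h2 : (Q /ₘ (X - C ((r : ℚ) + l))).natDegree ≤ d := by
        rw [Polynomial.natDegree_divByMonic Q (Polynomial.monic_X_sub_C _), Polynomial.natDegree_X_sub_C]
        omega
      obtain ⟨Q1, hQ1⟩ : ∃ Q1, Q1 = Q /ₘ (X - C ((r : ℚ) + l)) := ⟨_, rfl⟩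
      rw [← hQ1] at h1 h2
      have h3 : ∀ w ∈ W, (Q.eval (w : ℚ)) • H w l =
          Q.eval ((r : ℚ) + l) • H w l - Q1.eval (w : ℚ) • dl (H w (l + 1)) := by
        intro w hw
        have e1 : Q.eval (w : ℚ) = Q.eval ((r : ℚ) + l) + Q1.eval (w : ℚ) * ((w : ℚ) - r - l) := by
          conv_lhs => rw [h1]
          simp only [eval_add, eval_mul, eval_sub, eval_X, eval_C]
          ring
        rw [e1, add_smul, mul_smul, hrec w hw l, smul_neg, sub_eq_add_neg]
      rw [Finset.sum_congr rfl h3, Finset.sum_sub_distrib, ← Finset.smul_sum, hs l (by omega), smul_zero,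
        zero_sub, neg_eq_zero]
      have h4 := ih (l + 1) (by omega) Q1 h2
      have h5 := congrArg dl h4
      rw [map_sum, map_zero] at h5
      rw [← h5]
      exact Finset.sum_congr rfl fun w _ => by rw [map_smul]
  intro w hw l hl
  have hcard : 1 ≤ W.card := Finset.card_pos.mpr ⟨w, hw⟩
  have hinj : Set.InjOn (fun w : ℕ => (w : ℚ)) W := fun a _ b _ h => by
    have h' : (a : ℚ) = b := h
    exact_mod_cast h'
  have hdeg : (Lagrange.basis W (fun w : ℕ => (w : ℚ)) w).natDegree ≤ W.card - 1 := by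
    rw [Polynomial.natDegree_le_iff_degree_le, Lagrange.degree_basis hinj hw]
  have h1 := key (W.card - 1) l (by omega) _ hdeg
  rw [Finset.sum_eq_single w] at h1
  · have h2 : (Lagrange.basis W (fun w : ℕ => (w : ℚ)) w).eval ((fun w : ℕ => (w : ℚ)) w) = 1 :=
      Lagrange.eval_basis_self hinj hw
    have h3 : (Lagrange.basis W (fun w : ℕ => (w : ℚ)) w).eval (w : ℚ) = 1 := h2
    rw [h3, one_smul] at h1
    exact h1
  · intro b hb hne
    have h2 : (Lagrange.basis W (fun w : ℕ => (w : ℚ)) w).eval ((fun w : ℕ => (w : ℚ)) b) = 0 :=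
      Lagrange.eval_basis_of_ne (Ne.symm hne) hb
    have h3 : (Lagrange.basis W (fun w : ℕ => (w : ℚ)) w).eval (b : ℚ) = 0 := h2
    rw [h3, zero_smul]
  · intro h; exact absurd hw h

end Pool.Agent.H777R4.DM
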