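import Pool.Agent.H777R4.DM.Asm
import Pool.Agent.H777R4.DM.DMN
import Pool.Agent.H777R4.DM.Van
import Pool.Agent.H553R3.AdMu
import Pool.Agent.H861R3.DM.LeadN
import Pool.Agent.H30R3.DSNKB
import Pool.Agent.H826R3.DM.ShearN
import Pool.Agent.H358R3.DM.FinalN

set_option autoImplicit false

namespace Pool.Agent.H777R4.DM

attribute [local instance 100] LieRing.ofAssociativeRing

theorem dm_main (fp : TaskFreeP) {n r R : ℕ} {ψ : Fin n → A} {wt : Fin n → ℕ} {W : Finset ℕ}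
    (hr : 1 ≤ r) (hR : R + 1 ≤ 2 * r) (hW : ∀ w ∈ W, W.card * R < w)
    (hwt : ∀ i, wt i ∈ W) (hdm : ∀ i, IsDM (ψ i)) (hhom : ∀ i, LenHom (ψ i) (wt i))
    (hcnt : ∀ i u, co (ψ i) u ≠ 0 → r ≤ u.count 1)
    (hind : ∀ c : Fin n → ℚ, (∀ u, u.count 1 ≤ R → co (cmb ψ c) u = 0) → c = 0) :
    Function.Injective (PhiN ψ) :=
  dm_case Pool.Agent.H337R3.Lead1.lead1 Pool.Agent.H861R3.DM.LeadN.leadN_ok fp
    Pool.Agent.H466R3.DMPrim0.prim0 Pool.Agent.H237R3.DM.taskDelta taskTwoB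
    Pool.Agent.H777R4.DM.R0.taskR0 Pool.Agent.H30R3.DSNKB.taskKB taskVan
    Pool.Agent.H553R3.taskAdMu Pool.Agent.H826R3.DM.taskShearN hr hR hW hwt hdm hhom hcnt hind

end Pool.Agent.H777R4.DM
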