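import Pool.Agent.H777R4.DM.Stmts

set_option autoImplicit false

namespace Pool.Agent.H777R4.DM

attribute [local instance 100] LieRing.ofAssociativeRing

section api
variable {α : Type}

lemma co_add (P Q : Al α) (l : List α) : co (P + Q) l = co P l + co Q l := by
  simp [co]
lemma co_smul (c : ℚ) (P : Al α) (l : List α) : co (c • P) l = c * co P l := by
  simp [co]
lemma co_neg (P : Al α) (l : List α) : co (-P) l = - co P l := by
  have := co_smul (-1) P l
  simpa using this
lemma co_sub (P Q : Al α) (l : List α) : co (P - Q) l = co P l - co Q l := by
  rw [sub_eq_add_neg, co_add, co_neg, sub_eq_add_neg]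
lemma co_zero (l : List α) : co (0 : Al α) l = 0 := by simp [co]

lemma al_ext {P Q : Al α} (h : ∀ l, co P l = co Q l) : P = Q := by
  apply MonoidAlgebra.ext
  ext m
  exact h (FreeMonoid.toList m)

lemma exists_co_ne {P : Al α} (h : P ≠ 0) : ∃ l, co P l ≠ 0 := by
  by_contra hcon
  apply h
  apply al_ext
  intro l
  rw [co_zero]
  by_contra h1
  exact hcon ⟨l, h1⟩

lemma al_induction {p : Al α → Prop} (P : Al α) (h1 : ∀ l, p (wd l))
    (h2 : ∀ P Q, p P → p Q → p (P + Q)) (h3 : ∀ (c : ℚ) P, p P → p (c • P)) : p P :=
  MonoidAlgebra.induction_on P (fun m => h1 (FreeMonoid.toList m)) h2 h3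

lemma co_wd [DecidableEq α] (l l' : List α) : co (wd l) l' = if l = l' then 1 else 0 := by
  classical
  unfold co wd
  rw [MonoidAlgebra.of_apply, MonoidAlgebra.coeff_single, Finsupp.single_apply]
  by_cases h : l = l'
  · subst h; simp
  · rw [if_neg h, if_neg]
    intro h2
    exact h (FreeMonoid.ofList.injective h2)

lemma lext_wd {V : Type} [AddCommGroup V] [Module ℚ V] (F : List α → V) (l : List α) :
    lext F (wd l) = F l := by
  unfold lext wd
  simp only [LinearMap.comp_apply, MonoidAlgebra.of_apply]
  show (Finsupp.linearCombination ℚ _) (Finsupp.single (FreeMonoid.ofList l) (1 : ℚ)) = _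
  rw [Finsupp.linearCombination_single, one_smul]
  rfl

lemma lin_ext {V : Type} [AddCommGroup V] [Module ℚ V] {F G : Al α →ₗ[ℚ] V}
    (h : ∀ l, F (wd l) = G (wd l)) : F = G := by
  refine LinearMap.ext fun P => ?_
  induction P using al_induction with
  | h1 l => exact h l
  | h2 P Q hP hQ => rw [map_add, map_add, hP, hQ]
  | h3 c P hP => rw [map_smul, map_smul, hP]

end api

lemma strip_nil : strip [] = ([], 0) := rfl
lemma strip_replicate (k : ℕ) : strip (List.replicate k 0) = ([], k) := by
  induction k with
  | zero => rfl
  | succ k ih => rw [List.replicate_succ]; simp [strip, ih]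

lemma strip_wordX (v : List ℕ) (k : ℕ) : strip (wordX v ++ List.replicate k 0) = (v, k) := by
  induction v with
  | nil => simpa [wordX] using strip_replicate k
  | cons a v ih =>
    have h1 : strip (1 :: (wordX v ++ List.replicate k 0)) = (0 :: v, k) := by
      simp [strip, ih]
    have h2 : ∀ n, strip (List.replicate n 0 ++ 1 :: (wordX v ++ List.replicate k 0)) = (n :: v, k) := by
      intro n
      induction n with
      | zero => simpa using h1
      | succ n ihn =>
        rw [List.replicate_succ, List.cons_append]
        simp [strip, ihn]
    simpa [wordX] using h2 a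

lemma wordX_strip (u : List (Fin 2)) :
    wordX (strip u).1 ++ List.replicate (strip u).2 0 = u := by
  induction u with
  | nil => simp [strip, wordX]
  | cons i u ih =>
    by_cases hi : i = 1
    · subst hi
      simp [strip, wordX, ih]
    · have hi0 : i = 0 := by omega
      subst hi0
      rcases h : (strip u).1 with _ | ⟨a, l⟩
      · rw [h] at ih
        simp only [wordX, List.nil_append] at ih
        simp only [strip, zero_ne_one, if_false, h, wordX, List.nil_append]
        rw [List.replicate_succ, ih]
      · rw [h] at ih
        simp only [strip, zero_ne_one, if_false, h, wordX]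
        rw [List.replicate_succ]
        simp only [wordX] at ih
        simp only [List.cons_append, ih]

lemma eq_wordX_iff (u : List (Fin 2)) (v : List ℕ) (k : ℕ) :
    u = wordX v ++ List.replicate k 0 ↔ strip u = (v, k) := by
  constructor
  · rintro rfl; exact strip_wordX v k
  · intro h
    have := wordX_strip u
    rw [h] at this
    exact this.symm

lemma wordX_length (v : List ℕ) : (wordX v).length = v.sum + v.length := by
  induction v with
  | nil => simp [wordX]
  | cons a v ih => simp [wordX, ih]; omega

lemma wordX_count (v : List ℕ) : (wordX v).count 1 = v.length := by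
  induction v with
  | nil => simp [wordX]
  | cons a v ih => simp [wordX, ih, List.count_append, List.count_replicate]

lemma word_length (v : List ℕ) (k : ℕ) : (wordX v ++ List.replicate k 0).length = v.sum + v.length + k := by
  rw [List.length_append, wordX_length, List.length_replicate]

lemma word_count (v : List ℕ) (k : ℕ) : (wordX v ++ List.replicate k (0 : Fin 2)).count 1 = v.length := by
  rw [List.count_append, wordX_count, List.count_replicate]
  simp

lemma cw_append (q : ℕ) (u u' : List (Fin 2)) : cw q (u ++ u') = cw q u + cw q u' := by
  simp [cw]

lemma cw_eq (q : ℕ) (u : List (Fin 2)) : cw q u + u.count 1 = u.length + q * u.count 1 := by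
  induction u with
  | nil => simp [cw]
  | cons i u ih =>
    by_cases hi : i = 1
    · subst hi
      simp only [cw, List.map_cons, List.sum_cons, if_true, List.count_cons_self, List.length_cons] at ih ⊢
      rw [mul_add]; omega
    · simp only [cw, List.map_cons, List.sum_cons, hi, if_false, List.count_cons_of_ne hi, List.length_cons] at ih ⊢
      omega

lemma vw_eq (q : ℕ) (v : List ℕ) : vw q v = v.sum + q * v.length := by
  induction v with
  | nil => simp [vw]
  | cons a v ih =>
    simp only [vw, List.map_cons, List.sum_cons, List.length_cons] at ih ⊢
    rw [mul_add]; omega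

lemma co_run (k : ℕ) (ψ : A) (v : List ℕ) : co (run k ψ) v = co ψ (wordX v ++ List.replicate k 0) := by
  induction ψ using al_induction with
  | h1 u =>
    unfold run
    rw [lext_wd, co_wd]
    by_cases h : u = wordX v ++ List.replicate k 0
    · rw [if_pos h]
      have := (eq_wordX_iff u v k).mp h
      rw [this, if_pos rfl, co_wd, if_pos rfl]
    · rw [if_neg h]
      split_ifs with h1
      · rw [co_wd, if_neg]
        intro h2
        apply h
        rw [eq_wordX_iff]
        exact Prod.ext h2 h1
      · exact co_zero _
  | h2 P Q hP hQ => rw [map_add, co_add, co_add, hP, hQ]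
  | h3 c P hP => rw [map_smul, co_smul, co_smul, hP]

/-- `θ` of a homogeneous element -/
lemma co_theta {ψ : A} {w : ℕ} (h : LenHom ψ w) (v : List ℕ) :
    co (θ ψ) v = if v.sum + v.length ≤ w then
      co ψ (wordX v ++ List.replicate (w - (v.sum + v.length)) 0) else 0 := by
  -- write ψ as sum of homogeneous words
  have key : ∀ P : A, co (θ (comp w P)) v = if v.sum + v.length ≤ w then
      co (comp w P) (wordX v ++ List.replicate (w - (v.sum + v.length)) 0) else 0 := by
    intro P
    induction P using al_induction with
    | h1 u =>
      unfold comp
      rw [lext_wd]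
      split_ifs with h1 h2 h2
      · unfold θ
        rw [lext_wd, co_wd, co_wd]
        have h3 := wordX_strip u
        have h4 : (strip u).1.sum + (strip u).1.length + (strip u).2 = w := by
          rw [← word_length, h3, h1]
        by_cases h5 : (strip u).1 = v
        · rw [if_pos h5, if_pos]
          rw [← h3, h5] 
          congr 2
          rw [h5] at h4
          omega
        · rw [if_neg h5, if_neg]
          intro h6
          apply h5
          rw [h6, strip_wordX]
      · unfold θ
        rw [lext_wd, co_wd, if_neg]
        intro h5
        have h3 := wordX_strip u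
        have h4 : (strip u).1.sum + (strip u).1.length + (strip u).2 = w := by
          rw [← word_length, h3, h1]
        rw [h5] at h4
        omega
      · rw [map_zero, co_zero, co_zero]
      · rw [map_zero, co_zero]
    | h2 P Q hP hQ =>
      rw [map_add, map_add, co_add, co_add, hP, hQ]
      split_ifs <;> ring
    | h3 c P hP =>
      rw [map_smul, map_smul, co_smul, co_smul, hP]
      split_ifs <;> ring
  have h1 : comp w ψ = ψ := by
    apply al_ext
    intro l
    have h2 : ∀ P : A, co (comp w P) l = if l.length = w then co P l else 0 := by
      intro P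
      induction P using al_induction with
      | h1 u =>
        unfold comp
        rw [lext_wd]
        split_ifs with h1 h2 h2
        · rfl
        · rw [co_wd, if_neg]
          rintro rfl; exact h2 h1
        · rw [co_zero, co_wd, if_neg]
          rintro rfl; exact h1 h2
        · exact co_zero _
      | h2 P Q hP hQ => rw [map_add, co_add, co_add, hP, hQ]; split_ifs <;> ring
      | h3 c P hP => rw [map_smul, co_smul, co_smul, hP]; split_ifs <;> ring
    rw [h2]
    split_ifs with h3
    · rfl
    · by_contra hcon
      exact h3 (h l (Ne.symm hcon))
  have := key ψ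
  rwa [h1] at this

lemma co_comp (w : ℕ) (P : A) (l : List (Fin 2)) : co (comp w P) l = if l.length = w then co P l else 0 := by
  induction P using al_induction with
  | h1 u =>
    unfold comp
    rw [lext_wd]
    split_ifs with h1 h2 h2
    · rfl
    · rw [co_wd, if_neg]
      rintro rfl; exact h2 h1
    · rw [co_zero, co_wd, if_neg]
      rintro rfl; exact h1 h2
    · exact co_zero _
  | h2 P Q hP hQ => rw [map_add, co_add, co_add, hP, hQ]; split_ifs <;> ring
  | h3 c P hP => rw [map_smul, co_smul, co_smul, hP]; split_ifs <;> ring

/-- depth part -/
noncomputable def dp (r : ℕ) : AY →ₗ[ℚ] AY := lext (fun v => if v.length = r then wd v else 0)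

lemma co_dp (r : ℕ) (P : AY) (l : List ℕ) : co (dp r P) l = if l.length = r then co P l else 0 := by
  induction P using al_induction with
  | h1 u =>
    unfold dp
    rw [lext_wd]
    split_ifs with h1 h2 h2
    · rfl
    · rw [co_wd, if_neg]
      rintro rfl; exact h2 h1
    · rw [co_zero, co_wd, if_neg]
      rintro rfl; exact h1 h2
    · exact co_zero _
  | h2 P Q hP hQ => rw [map_add, co_add, co_add, hP, hQ]; split_ifs <;> ring
  | h3 c P hP => rw [map_smul, co_smul, co_smul, hP]; split_ifs <;> ring

lemma wd_mul {α : Type} (l l' : List α) : (wd l * wd l' : Al α) = wd (l ++ l') := by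
  unfold wd
  rw [← map_mul]
  rfl

/-- `dlW v` only has words of length `|v|` -/
lemma dlW_eq (v : List ℕ) : dp v.length (dlW v) = dlW v ∧ ∀ r, r ≠ v.length → dp r (dlW v) = 0 := by
  have key : ∀ v : List ℕ, ∀ l, co (dlW v) l ≠ 0 → l.length = v.length := by
    intro v
    induction v with
    | nil => intro l h; exact absurd (co_zero l) h
    | cons k v ih =>
      intro l h
      unfold dlW at h
      rw [co_add, co_smul, co_wd] at h
      by_cases h1 : (k - 1) :: v = l
      · rw [← h1]; simp
      · rw [if_neg h1, mul_zero, zero_add] at h
        -- wd [k] * dlW v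
        have h2 : ∀ P : AY, ∀ l, co (wd [k] * P) l ≠ 0 → ∃ l', l = k :: l' ∧ co P l' ≠ 0 := by
          intro P
          have h3 : ∀ l, co (wd [k] * P) l = match l with
              | [] => 0
              | a :: l' => if a = k then co P l' else 0 := by
            induction P using al_induction with
            | h1 u =>
              intro l
              rw [wd_mul, co_wd]
              rcases l with _ | ⟨a, l'⟩
              · simp
              · simp only [List.singleton_append, List.cons.injEq, co_wd]
                by_cases ha : a = k
                · subst ha; simp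
                · simp [ha, Ne.symm ha]
            | h2 P Q hP hQ =>
              intro l
              rw [mul_add, co_add, hP, hQ]
              rcases l with _ | ⟨a, l'⟩
              · simp
              · simp only [co_add]; split_ifs <;> ring
            | h3 c P hP =>
              intro l
              rw [mul_smul_comm, co_smul, hP]
              rcases l with _ | ⟨a, l'⟩
              · simp
              · simp only [co_smul]; split_ifs <;> ring
          intro l hl
          rw [h3] at hl
          rcases l with _ | ⟨a, l'⟩
          · exact absurd rfl hl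
          · simp only at hl
            split_ifs at hl with h4
            · exact ⟨l', by rw [h4], hl⟩
            · exact absurd rfl hl
        obtain ⟨l', rfl, h5⟩ := h2 _ _ h
        simp [ih l' h5]
  constructor
  · apply al_ext
    intro l
    rw [co_dp]
    split_ifs with h
    · rfl
    · by_contra hcon
      exact h (key v l (Ne.symm hcon))
  · intro r hr
    apply al_ext
    intro l
    rw [co_dp, co_zero]
    split_ifs with h
    · by_contra hcon
      exact hr (by rw [← h]; exact key v l hcon)
    · rfl

lemma dp_dl (r : ℕ) (P : AY) : dp r (dl P) = dl (dp r P) := by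
  induction P using al_induction with
  | h1 v =>
    unfold dl
    rw [lext_wd]
    have : dp r (wd v) = if v.length = r then wd v else 0 := by unfold dp; rw [lext_wd]
    rw [this]
    split_ifs with h
    · rw [lext_wd, ← h, (dlW_eq v).1]
    · rw [map_zero, (dlW_eq v).2 r (Ne.symm h)]
  | h2 P Q hP hQ => rw [map_add, map_add, hP, hQ, map_add, map_add]
  | h3 c P hP => rw [map_smul, map_smul, hP, map_smul, map_smul]

lemma prim_add {P Q : AY} (hP : Prim P) (hQ : Prim Q) : Prim (P + Q) := by
  unfold Prim at *
  rw [map_add, hP, hQ, map_add, map_add]; abel
lemma prim_smul {P : AY} (c : ℚ) (hP : Prim P) : Prim (c • P) := by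
  unfold Prim at *
  rw [map_smul, hP, map_smul, map_smul, smul_add]
lemma prim_neg {P : AY} (hP : Prim P) : Prim (-P) := by
  have := prim_smul (-1) hP
  simpa using this
lemma prim_sub {P Q : AY} (hP : Prim P) (hQ : Prim Q) : Prim (P - Q) := by
  rw [sub_eq_add_neg]; exact prim_add hP (prim_neg hQ)

end Pool.Agent.H777R4.DM
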