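import Pool.Agent.H777R4.DM.Basic

set_option autoImplicit false

namespace Pool.Agent.H777R4.DM

attribute [local instance 100] LieRing.ofAssociativeRing

/-- the part of depth `r` with `j` trailing `x₀`s -/
noncomputable def Fp (r : ℕ) (ψ : A) (j : ℕ) : AY := dp r (run j ψ)

lemma co_Fp (r : ℕ) (ψ : A) (j : ℕ) (v : List ℕ) : co (Fp r ψ j) v =
    if v.length = r then co ψ (wordX v ++ List.replicate j 0) else 0 := by
  unfold Fp; rw [co_dp, co_run]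

lemma co_Fp_ne {ψ : A} {w r j : ℕ} {v : List ℕ} (hw : LenHom ψ w) (h : co (Fp r ψ j) v ≠ 0) :
    v.length = r ∧ v.sum + r + j = w := by
  rw [co_Fp] at h
  split_ifs at h with h1
  · refine ⟨h1, ?_⟩
    have := hw _ h
    rw [word_length] at this
    omega
  · exact absurd rfl h

lemma Fp_lenHom (r : ℕ) (ψ : A) (j : ℕ) : LenHom (Fp r ψ j) r := by
  intro v h
  rw [co_Fp] at h
  split_ifs at h with h1
  · exact h1
  · exact absurd rfl h

lemma Fp_sub (r : ℕ) (ψ₁ ψ₂ : A) (κ : ℚ) (j : ℕ) :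
    Fp r (ψ₂ - κ • ψ₁) j = Fp r ψ₂ j - κ • Fp r ψ₁ j := by
  unfold Fp
  rw [map_sub, map_smul, map_sub, map_smul]

/-- the profile of a homogeneous element -/
structure Prof (ψ : A) (w r k : ℕ) : Prop where
  hr : 1 ≤ r
  hk : 2 ≤ k
  hom : LenHom ψ w
  cnt : ∀ u, co ψ u ≠ 0 → r ≤ u.count 1
  top : Fp r ψ k ≠ 0
  above : ∀ j, k < j → Fp r ψ j = 0
  prim : ∀ j, Prim (Fp r ψ j)
  r0 : ∀ j : ℕ, ((j : ℚ) + 1) • Fp r ψ (j + 1) = - dl (Fp r ψ j)

lemma exists_prof (p0 : TaskPrim0) (dlt : TaskDelta) (r0 : TaskR0) (ta : TaskTwoA) (tb : TaskTwoB)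
    (tc : TaskTwoC) (td : TaskTwoD) (sm : TaskSmall) {ψ : A} {w : ℕ} (hψ : IsDM ψ) (hw : LenHom ψ w)
    (h0 : ψ ≠ 0) : ∃ r k, Prof ψ w r k := by
  classical
  have small := sm tb tc ψ hψ
  have hex : ∃ c, ∃ u, co ψ u ≠ 0 ∧ u.count 1 = c := by
    obtain ⟨u, hu⟩ := exists_co_ne h0
    exact ⟨_, u, hu, rfl⟩
  obtain ⟨r, hr⟩ : ∃ r, r = Nat.find hex := ⟨_, rfl⟩
  have hspec : ∃ u, co ψ u ≠ 0 ∧ u.count 1 = r := by rw [hr]; exact Nat.find_spec hex
  have hmin : ∀ u, co ψ u ≠ 0 → r ≤ u.count 1 := by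
    intro u hu
    rw [hr]
    exact Nat.find_min' hex ⟨u, hu, rfl⟩
  have hr1 : 1 ≤ r := by
    obtain ⟨u, hu, h1⟩ := hspec
    rw [← h1]
    exact (small u hu).2
  have hF0 : ∀ v, co (Fp r ψ 0) v = if v.length = r then co ψ (wordX v) else 0 := by
    intro v
    rw [co_Fp, List.replicate_zero, List.append_nil]
  have hR : ∀ j : ℕ, ((j : ℚ) + 1) • Fp r ψ (j + 1) = - dl (Fp r ψ j) := by
    intro j
    have := congrArg (dp r) (r0 ψ hψ.mem hψ.c0 j)
    rw [map_smul, map_neg, dp_dl] at this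
    exact this
  have hprim : ∀ j, Prim (Fp r ψ j) := by
    intro j
    induction j with
    | zero => exact p0 ψ hψ r hr1 hmin _ hF0
    | succ j ih =>
      have h1 : Fp r ψ (j + 1) = ((j : ℚ) + 1)⁻¹ • (- dl (Fp r ψ j)) := by
        rw [← hR j, smul_smul, inv_mul_cancel₀ (by positivity), one_smul]
      rw [h1]
      exact prim_smul _ (prim_neg (dlt _ ih))
  obtain ⟨k, v, hk, hv, hkv⟩ := td ta tb tc ψ hψ.mem hψ.c0 hψ.c1 (fun u hu => (small u hu).1) r hr1 hmin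
    hspec (Fp r ψ 0) hF0 (hprim 0)
  have hne : Fp r ψ k ≠ 0 := by
    intro h
    have h1 := co_Fp r ψ k v
    rw [h, co_zero, if_pos hv] at h1
    exact hkv h1.symm
  have hbd : ∀ j, Fp r ψ j ≠ 0 → j ≤ w := by
    intro j hj
    obtain ⟨v, hv⟩ := exists_co_ne hj
    have := (co_Fp_ne hw hv).2
    omega
  refine ⟨r, Nat.findGreatest (fun j => Fp r ψ j ≠ 0) w, hr1, ?_, hw, hmin, ?_, ?_, hprim, hR⟩
  · exact le_trans hk (Nat.le_findGreatest (hbd k hne) hne)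
  · exact Nat.findGreatest_spec (P := fun j => Fp r ψ j ≠ 0) (hbd k hne) hne
  · intro j hj
    by_contra hcon
    exact Nat.findGreatest_is_greatest hj (hbd j hcon) hcon

/-- leading weight -/
def NN (w r k q : ℕ) : ℕ := (w - (r + k)) + q * r

lemma Prof.le {ψ : A} {w r k : ℕ} (P : Prof ψ w r k) : r + k ≤ w := by
  obtain ⟨v, hv⟩ := exists_co_ne P.top
  have := (co_Fp_ne P.hom hv).2
  omega

lemma cond1 {ψ : A} {w r k q : ℕ} (P : Prof ψ w r k) (hq : w < q) {u : List (Fin 2)} (hu : co ψ u ≠ 0) :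
    NN w r k q + 2 ≤ cw q u := by
  have h1 := P.cnt u hu
  have h2 := P.hom u hu
  have h3 := cw_eq q u
  have h4 : u.count 1 ≤ u.length := List.count_le_length
  have h5 := P.le
  have h6 := P.hk
  have h7 := P.hr
  unfold NN
  rcases Nat.lt_or_ge r (u.count 1) with h | h
  · have h8 : q * (r + 1) ≤ q * u.count 1 := Nat.mul_le_mul_left q h
    rw [mul_add, mul_one] at h8
    omega
  · have h8 : u.count 1 = r := le_antisymm h h1
    rw [h8] at h3
    omega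

lemma weights {ψ : A} {w r k q j : ℕ} (P : Prof ψ w r k) {v : List ℕ} (h : co (Fp r ψ j) v ≠ 0) :
    vw q v + j = NN w r k q + k := by
  obtain ⟨h1, h2⟩ := co_Fp_ne P.hom h
  have h3 := P.le
  unfold NN
  rw [vw_eq, h1]
  omega

lemma theta_low {ψ : A} {w r k q : ℕ} (P : Prof ψ w r k) (hq : w < q) {v : List ℕ}
    (hv : vw q v ≤ NN w r k q + 1) : co (θ ψ) v = co (Fp r ψ k) v + co (Fp r ψ (k - 1)) v := by
  have h5 := P.le
  have h6 := P.hk
  have h7 := P.hr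
  rw [co_theta P.hom]
  rw [vw_eq] at hv
  unfold NN at hv
  rcases lt_trichotomy v.length r with h | h | h
  · have hne : ¬ v.length = r := by omega
    rw [co_Fp, co_Fp, if_neg hne, if_neg hne, add_zero]
    split_ifs with h1
    · by_contra hcon
      have := P.cnt _ hcon
      rw [word_count] at this
      omega
    · rfl
  · rw [h] at hv
    rw [if_pos (by omega), h]
    have h8 : ∀ j, v.sum + r + j ≠ w → co (Fp r ψ j) v = 0 := by
      intro j hj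
      by_contra hcon
      exact hj (co_Fp_ne P.hom hcon).2
    have h9 : co (Fp r ψ (w - (v.sum + r))) v = co ψ (wordX v ++ List.replicate (w - (v.sum + r)) 0) := by
      rw [co_Fp, if_pos h]
    rw [← h9]
    rcases Nat.lt_trichotomy (w - (v.sum + r)) k with h10 | h10 | h10
    · have h11 : w - (v.sum + r) = k - 1 := by omega
      rw [h11, h8 k (by omega), zero_add]
    · rw [h10, h8 (k - 1) (by omega), add_zero]
    · rw [P.above _ h10, co_zero, h8 k (by omega), h8 (k - 1) (by omega), add_zero]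
  · exfalso
    have h8 : q * (r + 1) ≤ q * v.length := Nat.mul_le_mul_left q h
    rw [mul_add, mul_one] at h8
    omega

lemma lam_inj (kl1 : TaskKL1) (kl2 : TaskKL2) {F G : AY} {r t : ℕ} (hr : 1 ≤ r) (ht : 1 ≤ t)
    (hF : LenHom F r) (hG : LenHom G t) (pF : Prim F) (pG : Prim G) (F0 : F ≠ 0) (G0 : G ≠ 0)
    (h1 : ∀ c : ℚ, F ≠ c • G) (h2 : ∀ c : ℚ, G ≠ c • F) : Function.Injective (lam F G) :=
  kl2 F G r t hr ht hF hG F0 G0 (kl1 F G r t hr ht hF hG pF pG F0 G0 h1)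
    (kl1 G F t r ht hr hG hF pG pF G0 F0 h2)

lemma caseA (kl1 : TaskKL1) (kl2 : TaskKL2) (l1 : TaskLead1) (l2 : TaskLead2) {ψ₁ ψ₂ : A}
    {w₁ r₁ k₁ w₂ r₂ k₂ : ℕ} (P₁ : Prof ψ₁ w₁ r₁ k₁) (P₂ : Prof ψ₂ w₂ r₂ k₂)
    (h1 : ∀ c : ℚ, Fp r₁ ψ₁ k₁ ≠ c • Fp r₂ ψ₂ k₂) (h2 : ∀ c : ℚ, Fp r₂ ψ₂ k₂ ≠ c • Fp r₁ ψ₁ k₁) :
    Function.Injective (Phi ψ₁ ψ₂) := by
  have hinj := lam_inj kl1 kl2 P₁.hr P₂.hr (Fp_lenHom r₁ ψ₁ k₁) (Fp_lenHom r₂ ψ₂ k₂) (P₁.prim k₁)
    (P₂.prim k₂) P₁.top P₂.top h1 h2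
  obtain ⟨q, hq⟩ : ∃ q, q = w₁ + w₂ + 1 := ⟨_, rfl⟩
  have hq1 : w₁ < q := by omega
  have hq2 : w₂ < q := by omega
  have key : ∀ {ψ : A} {w r k : ℕ}, Prof ψ w r k → w < q → ∀ v, co (θ ψ) v ≠ co (Fp r ψ k) v →
      NN w r k q + 1 ≤ vw q v := by
    intro ψ w r k P hwq v hv
    by_contra hcon
    have h3 := theta_low P hwq (v := v) (q := q) (by omega)
    have h4 : co (Fp r ψ (k - 1)) v ≠ 0 := by
      intro h5
      rw [h5, add_zero] at h3
      exact hv h3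
    have h5 := weights (q := q) P h4
    have h6 := P.hk
    omega
  refine l2 l1 ![ψ₁, ψ₂] ![Fp r₁ ψ₁ k₁, Fp r₂ ψ₂ k₂] ![NN w₁ r₁ k₁ q, NN w₂ r₂ k₂ q] q ?_ ?_ ?_ hinj
  · rw [Fin.forall_fin_two]
    refine ⟨fun u hu => ?_, fun u hu => ?_⟩
    · have := cond1 P₁ hq1 hu
      show NN w₁ r₁ k₁ q + 1 ≤ _
      omega
    · have := cond1 P₂ hq2 hu
      show NN w₂ r₂ k₂ q + 1 ≤ _
      omega
  · rw [Fin.forall_fin_two]
    exact ⟨fun v hv => key P₁ hq1 v hv, fun v hv => key P₂ hq2 v hv⟩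
  · rw [Fin.forall_fin_two]
    refine ⟨fun v hv => ?_, fun v hv => ?_⟩
    · have := weights (q := q) P₁ hv
      show _ = NN w₁ r₁ k₁ q
      omega
    · have := weights (q := q) P₂ hv
      show _ = NN w₂ r₂ k₂ q
      omega

/-- two nonzero elements with different weights are not proportional -/
lemma not_prop {F G : AY} (F0 : F ≠ 0) (h : ∀ v, co F v ≠ 0 → co G v = 0) (c : ℚ) : F ≠ c • G := by
  intro h1
  obtain ⟨v, hv⟩ := exists_co_ne F0
  have h2 := h v hv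
  rw [h1, co_smul, h2, mul_zero] at hv
  exact hv rfl

lemma caseB2 (kl1 : TaskKL1) (kl2 : TaskKL2) (l1 : TaskLead1) (l2 : TaskLead2) {ψ₁ ψ₂ : A}
    {w₁ r k₁ w₂ k₂ : ℕ} (P₁ : Prof ψ₁ w₁ r k₁) (P₂ : Prof ψ₂ w₂ r k₂) (κ : ℚ) (hκ : κ ≠ 0)
    (hw : w₁ ≠ w₂) (hp : Fp r ψ₂ k₂ = κ • Fp r ψ₁ k₁) :
    Function.Injective (Phi ψ₁ (ψ₂ - κ • ψ₁)) := by
  obtain ⟨q, hq⟩ : ∃ q, q = w₁ + w₂ + 1 := ⟨_, rfl⟩
  have hq1 : w₁ < q := by omega
  have hq2 : w₂ < q := by omega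
  -- the leading weights agree
  have hN : NN w₁ r k₁ q = NN w₂ r k₂ q := by
    obtain ⟨v, hv⟩ := exists_co_ne P₁.top
    have h1 := weights (q := q) P₁ hv
    have h2 : co (Fp r ψ₂ k₂) v ≠ 0 := by
      rw [hp, co_smul]; exact mul_ne_zero hκ hv
    have h3 := weights (q := q) P₂ h2
    omega
  have hk : k₁ ≠ k₂ := by
    intro hk
    have := P₁.le
    have := P₂.le
    unfold NN at hN
    omega
  obtain ⟨N, hNdef⟩ : ∃ N, N = NN w₁ r k₁ q := ⟨_, rfl⟩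
  have hN1 : NN w₁ r k₁ q = N := hNdef.symm
  have hN2 : NN w₂ r k₂ q = N := by rw [← hN, hN1]
  obtain ⟨σ, hσ⟩ : ∃ σ, σ = Fp r ψ₂ (k₂ - 1) - κ • Fp r ψ₁ (k₁ - 1) := ⟨_, rfl⟩
  have hk1 := P₁.hk
  have hk2 := P₂.hk
  -- words of σ
  have hσw : ∀ v, co σ v ≠ 0 → vw q v = N + 1 := by
    intro v hv
    rw [hσ, co_sub, co_smul] at hv
    by_cases h1 : co (Fp r ψ₂ (k₂ - 1)) v = 0
    · rw [h1, zero_sub] at hv
      have h2 : co (Fp r ψ₁ (k₁ - 1)) v ≠ 0 := by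
        intro h3; rw [h3, mul_zero, neg_zero] at hv; exact hv rfl
      have := weights (q := q) P₁ h2
      omega
    · have := weights (q := q) P₂ h1
      omega
  have hσl : LenHom σ r := by
    intro v hv
    rw [hσ, co_sub, co_smul] at hv
    by_cases h1 : co (Fp r ψ₂ (k₂ - 1)) v = 0
    · rw [h1, zero_sub] at hv
      have h2 : co (Fp r ψ₁ (k₁ - 1)) v ≠ 0 := by
        intro h3; rw [h3, mul_zero, neg_zero] at hv; exact hv rfl
      exact Fp_lenHom _ _ _ v h2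
    · exact Fp_lenHom _ _ _ v h1
  have hσp : Prim σ := by
    rw [hσ]; exact prim_sub (P₂.prim _) (prim_smul _ (P₁.prim _))
  have hσ0 : σ ≠ 0 := by
    intro h0
    have e2 := P₂.r0 (k₂ - 1)
    have e1 := P₁.r0 (k₁ - 1)
    have h2 : (((k₂ - 1 : ℕ) : ℚ) + 1) = k₂ := by
      rw [Nat.cast_sub (by omega)]; push_cast; ring
    have h1 : (((k₁ - 1 : ℕ) : ℚ) + 1) = k₁ := by
      rw [Nat.cast_sub (by omega)]; push_cast; ring
    rw [h2, Nat.sub_add_cancel (by omega)] at e2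
    rw [h1, Nat.sub_add_cancel (by omega)] at e1
    have e3 : dl σ = (κ * ((k₁ : ℚ) - k₂)) • Fp r ψ₁ k₁ := by
      rw [hσ, map_sub, map_smul]
      have e4 : dl (Fp r ψ₂ (k₂ - 1)) = - ((k₂ : ℚ) • Fp r ψ₂ k₂) := by rw [e2, neg_neg]
      have e5 : dl (Fp r ψ₁ (k₁ - 1)) = - ((k₁ : ℚ) • Fp r ψ₁ k₁) := by rw [e1, neg_neg]
      rw [e4, e5, hp]
      module
    rw [h0, map_zero] at e3
    have h4 : κ * ((k₁ : ℚ) - k₂) ≠ 0 := by
      apply mul_ne_zero hκ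
      intro h5
      apply hk
      have : (k₁ : ℚ) = k₂ := by linarith
      exact_mod_cast this
    exact P₁.top ((smul_eq_zero.mp e3.symm).resolve_left h4)
  have hinj : Function.Injective (lam (Fp r ψ₁ k₁) σ) := by
    refine lam_inj kl1 kl2 P₁.hr P₁.hr (Fp_lenHom r ψ₁ k₁) hσl (P₁.prim k₁) hσp P₁.top hσ0 ?_ ?_
    · refine not_prop P₁.top ?_
      intro v hv
      by_contra hcon
      have h1 := hσw v hcon
      have h2 := weights (q := q) P₁ hv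
      omega
    · refine not_prop hσ0 ?_
      intro v hv
      by_contra hcon
      have h1 := hσw v hv
      have h2 := weights (q := q) P₁ hcon
      omega
  refine l2 l1 ![ψ₁, ψ₂ - κ • ψ₁] ![Fp r ψ₁ k₁, σ] ![N, N + 1] q ?_ ?_ ?_ hinj
  · rw [Fin.forall_fin_two]
    refine ⟨fun u hu => ?_, fun u hu => ?_⟩
    · have := cond1 P₁ hq1 hu
      show N + 1 ≤ _
      omega
    · show N + 1 + 1 ≤ _
      have hu' : co (ψ₂ - κ • ψ₁) u ≠ 0 := hu
      rw [co_sub, co_smul] at hu'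
      by_cases h1 : co ψ₂ u = 0
      · have h2 : co ψ₁ u ≠ 0 := by
          intro h3; rw [h1, h3, mul_zero, sub_zero] at hu'; exact hu' rfl
        have := cond1 P₁ hq1 h2
        omega
      · have := cond1 P₂ hq2 h1
        omega
  · rw [Fin.forall_fin_two]
    refine ⟨fun v hv => ?_, fun v hv => ?_⟩
    · show N + 1 ≤ _
      have hv' : co (θ ψ₁) v ≠ co (Fp r ψ₁ k₁) v := hv
      by_contra hcon
      have h3 := theta_low P₁ hq1 (v := v) (q := q) (by omega)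
      have h4 : co (Fp r ψ₁ (k₁ - 1)) v ≠ 0 := by
        intro h5
        rw [h5, add_zero] at h3
        exact hv' h3
      have h5 := weights (q := q) P₁ h4
      omega
    · show N + 1 + 1 ≤ _
      have hv' : co (θ (ψ₂ - κ • ψ₁)) v ≠ co σ v := hv
      by_contra hcon
      apply hv'
      have h3 := theta_low P₁ hq1 (v := v) (q := q) (by omega)
      have h4 := theta_low P₂ hq2 (v := v) (q := q) (by omega)
      rw [map_sub, map_smul, co_sub, co_smul, h3, h4, hp, hσ, co_sub, co_smul, co_smul]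
      ring
  · rw [Fin.forall_fin_two]
    refine ⟨fun v hv => ?_, fun v hv => ?_⟩
    · have := weights (q := q) P₁ hv
      show _ = N
      omega
    · exact hσw v hv

/-- `dm` is closed under linear combinations -/
lemma isDM_sub {ψ₁ ψ₂ : A} (h₁ : IsDM ψ₁) (h₂ : IsDM ψ₂) (κ : ℚ) : IsDM (ψ₂ - κ • ψ₁) := by
  refine ⟨?_, ?_, ?_, ?_, ?_⟩
  · exact LieX.sub_mem h₂.mem (LieX.smul_mem κ h₁.mem)
  · rw [co_sub, co_smul, h₁.c0, h₂.c0]; ring
  · rw [co_sub, co_smul, h₁.c1, h₂.c1]; ring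
  · rw [co_sub, co_smul, h₁.c01, h₂.c01]; ring
  · obtain ⟨Q₁, c₁, s₁⟩ := h₁.star
    obtain ⟨Q₂, c₂, s₂⟩ := h₂.star
    refine ⟨Q₂ - κ • Q₁, ?_, ?_⟩
    · intro v
      rw [co_sub, co_smul, c₁, c₂, co_sub, co_smul]
      have : corr (ψ₂ - κ • ψ₁) v = corr ψ₂ v - κ * corr ψ₁ v := by
        unfold corr
        split_ifs
        · rw [co_sub, co_smul]; ring
        · ring
      rw [this]; ring
    · rw [map_sub, map_smul, s₁, s₂, map_sub, map_smul, map_sub, map_smul, smul_add]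
      abel

lemma lenHom_sub {ψ₁ ψ₂ : A} {w : ℕ} (h₁ : LenHom ψ₁ w) (h₂ : LenHom ψ₂ w) (κ : ℚ) :
    LenHom (ψ₂ - κ • ψ₁) w := by
  intro u hu
  rw [co_sub, co_smul] at hu
  by_cases h1 : co ψ₂ u = 0
  · have h2 : co ψ₁ u ≠ 0 := by
      intro h3; rw [h1, h3, mul_zero, sub_zero] at hu; exact hu rfl
    exact h₁ u h2
  · exact h₂ u h1

theorem homog_of (kl1 : TaskKL1) (kl2 : TaskKL2) (l1 : TaskLead1) (l2 : TaskLead2) (p0 : TaskPrim0)
    (dlt : TaskDelta) (r0 : TaskR0) (ta : TaskTwoA) (tb : TaskTwoB) (tc : TaskTwoC) (td : TaskTwoD)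
    (sm : TaskSmall) (sh : TaskShear) : Homog := by
  intro ψ₁ ψ₂ w₁ w₂ h₁ h₂ hw₁ hw₂ hli
  have n1 : ψ₁ ≠ 0 := by
    intro h
    have := hli 1 0 (by rw [h]; simp)
    exact one_ne_zero this.1
  have n2 : ψ₂ ≠ 0 := by
    intro h
    have := hli 0 1 (by rw [h]; simp)
    exact one_ne_zero this.2
  obtain ⟨r₁, k₁, P₁⟩ := exists_prof p0 dlt r0 ta tb tc td sm h₁ hw₁ n1
  obtain ⟨r₂, k₂, P₂⟩ := exists_prof p0 dlt r0 ta tb tc td sm h₂ hw₂ n2
  by_cases hA : ∀ c : ℚ, Fp r₂ ψ₂ k₂ ≠ c • Fp r₁ ψ₁ k₁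
  · refine caseA kl1 kl2 l1 l2 P₁ P₂ ?_ hA
    intro c hc
    have hc0 : c ≠ 0 := by
      rintro rfl
      rw [zero_smul] at hc
      exact P₁.top hc
    apply hA c⁻¹
    rw [hc, smul_smul, inv_mul_cancel₀ hc0, one_smul]
  · push Not at hA
    obtain ⟨κ, hκ⟩ := hA
    have hκ0 : κ ≠ 0 := by
      rintro rfl
      rw [zero_smul] at hκ
      exact P₂.top hκ
    -- depths agree
    have hr : r₁ = r₂ := by
      obtain ⟨v, hv⟩ := exists_co_ne P₁.top
      have h1 := Fp_lenHom _ _ _ v hv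
      have h2 : co (Fp r₂ ψ₂ k₂) v ≠ 0 := by
        rw [hκ, co_smul]; exact mul_ne_zero hκ0 hv
      have h3 := Fp_lenHom _ _ _ v h2
      omega
    subst hr
    apply sh ψ₁ ψ₂ κ
    by_cases hw : w₁ = w₂
    · subst hw
      have hk : k₁ = k₂ := by
        obtain ⟨v, hv⟩ := exists_co_ne P₁.top
        have h1 := (co_Fp_ne P₁.hom hv).2
        have h2 : co (Fp r₁ ψ₂ k₂) v ≠ 0 := by
          rw [hκ, co_smul]; exact mul_ne_zero hκ0 hv
        have h3 := (co_Fp_ne P₂.hom h2).2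
        omega
      subst hk
      have hne : ψ₂ - κ • ψ₁ ≠ 0 := by
        intro h
        have := hli (-κ) 1 (by rw [← h]; module)
        exact one_ne_zero this.2
      obtain ⟨r', k', P'⟩ := exists_prof p0 dlt r0 ta tb tc td sm (isDM_sub h₁ h₂ κ)
        (lenHom_sub hw₁ hw₂ κ) hne
      have hd : ∀ v, co (Fp r₁ ψ₁ k₁) v ≠ 0 → co (Fp r' (ψ₂ - κ • ψ₁) k') v ≠ 0 → False := by
        intro v hv1 hv2
        have e1 := co_Fp_ne P₁.hom hv1
        have e2 := co_Fp_ne P'.hom hv2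
        have e3 : r' = r₁ := by omega
        subst e3
        have e4 : k' = k₁ := by omega
        subst e4
        apply P'.top
        rw [Fp_sub, hκ, sub_self]
      refine caseA kl1 kl2 l1 l2 P₁ P' (not_prop P₁.top ?_) (not_prop P'.top ?_)
      · intro v hv
        by_contra hcon
        exact hd v hv hcon
      · intro v hv
        by_contra hcon
        exact hd v hcon hv
    · exact caseB2 kl1 kl2 l1 l2 P₁ P₂ κ hκ0 hw hκ

end Pool.Agent.H777R4.DM
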