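import Pool.Agent.H777R4.DM.Stmts2

set_option autoImplicit false

namespace Pool.Agent.H777R4.DM

attribute [local instance 100] LieRing.ofAssociativeRing

def TaskFreeP : Prop := ∀ (n r : ℕ) (σ : Fin n → AY) (ρ : Fin n → ℕ), 1 ≤ r →
  (∀ i, r ≤ ρ i ∧ ρ i + 1 ≤ 2 * r) → (∀ i, LenHom (σ i) (ρ i)) → (∀ i, Prim (σ i)) →
  LinearIndependent ℚ σ → Function.Injective (lamN σ)

def TaskAdMu : Prop := ∀ (n B : ℕ) (μ : List ℕ → ℕ) (L : ℕ → (Fin n → ℚ) →ₗ[ℚ] AY),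
  (∀ l c v, co (L l c) v ≠ 0 → μ v = l) → (∀ c, c ≠ 0 → ∃ l ≤ B, L l c ≠ 0) →
  ∃ (M : Fin n → Fin n → ℚ) (sl : Fin n → ℕ), LinearIndependent ℚ M ∧
    (∀ i, ∀ l < sl i, L l (M i) = 0) ∧ LinearIndependent ℚ (fun i => L (sl i) (M i))

end Pool.Agent.H777R4.DM
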