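import Pool.Agent.H777R4.DM.CoreN
import Pool.Agent.H777R4.DM.Stmts3

set_option autoImplicit false

namespace Pool.Agent.H777R4.DM

attribute [local instance 100] LieRing.ofAssociativeRing

/-- select words of weight `N` -/
noncomputable def selq (q N : ℕ) : AY →ₗ[ℚ] AY :=
  lext (fun v => if vw q v = N then wd v else 0)

lemma co_selq (q N : ℕ) (P : AY) (v : List ℕ) :
    co (selq q N P) v = if vw q v = N then co P v else 0 := by
  induction P using al_induction with
  | h1 u =>
    unfold selq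
    rw [lext_wd]
    split_ifs with h1 h2 h2
    · rfl
    · rw [co_wd, if_neg]
      rintro rfl; exact h2 h1
    · rw [co_zero, co_wd, if_neg]
      rintro rfl; exact h1 h2
    · exact co_zero _
  | h2 P Q hP hQ => rw [map_add, co_add, co_add, hP, hQ]; split_ifs <;> ring
  | h3 c P hP => rw [map_smul, co_smul, co_smul, hP]; split_ifs <;> ring

/-- the part of `θ f` of weight `N` -/
noncomputable def lq (q N : ℕ) : A →ₗ[ℚ] AY := (selq q N) ∘ₗ θ

lemma co_lq (q N : ℕ) (f : A) (v : List ℕ) :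
    co (lq q N f) v = if vw q v = N then co (θ f) v else 0 := by
  unfold lq
  rw [LinearMap.comp_apply, co_selq]

lemma qdiv {q a b x y : ℕ} (ha : a < q) (hb : b < q) (h : a + q * x = b + q * y) : a = b ∧ x = y := by
  rcases lt_trichotomy x y with h1 | h1 | h1
  · have h2 : q * (x + 1) ≤ q * y := Nat.mul_le_mul_left q h1
    rw [mul_add, mul_one] at h2
    omega
  · subst h1; exact ⟨by omega, rfl⟩
  · have h2 : q * (y + 1) ≤ q * x := Nat.mul_le_mul_left q h1
    rw [mul_add, mul_one] at h2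
    omega

lemma prim_zero : Prim (0 : AY) := by
  unfold Prim
  rw [map_zero, map_zero, map_zero, add_zero]

lemma prim_sum {ι : Type} (s : Finset ι) (f : ι → AY) (h : ∀ i ∈ s, Prim (f i)) : Prim (∑ i ∈ s, f i) :=
  Finset.sum_induction f Prim (fun _ _ => prim_add) prim_zero h

section
variable {n r R : ℕ} {ψ : Fin n → A} {wt : Fin n → ℕ} {W : Finset ℕ}

lemma theta_cmb (hwt : ∀ i, wt i ∈ W) (hhom : ∀ i, LenHom (ψ i) (wt i)) {c : Fin n → ℚ} {v : List ℕ}
    (h : co (θ (cmb ψ c)) v ≠ 0) : ∃ j, co (cmb ψ c) (wordX v ++ List.replicate j 0) ≠ 0 := by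
  rw [cmb_eq hwt, map_sum, co_sum] at h
  obtain ⟨w, _, hw⟩ := Finset.exists_ne_zero_of_sum_ne_zero h
  rw [co_theta (cmw_hom hhom c w)] at hw
  split_ifs at hw with h1
  · refine ⟨w - (v.sum + v.length), ?_⟩
    rw [co_cmb hhom, word_length]
    have h2 : v.sum + v.length + (w - (v.sum + v.length)) = w := by omega
    rw [h2]
    exact hw
  · exact absurd rfl hw

lemma no_word (r0 : TaskR0) (van : TaskVan) (hwt : ∀ i, wt i ∈ W) (hhom : ∀ i, LenHom (ψ i) (wt i))
    (hmem : ∀ i, ψ i ∈ LieX) (hc0 : ∀ i, co (ψ i) [0] = 0) (c : Fin n → ℚ) (ρ : ℕ)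
    (h : ∀ l, lv ρ l (cmb ψ c) = 0) : ∀ u, u.count 1 = ρ → co (cmb ψ c) u = 0 := by
  intro u hu
  by_contra hne
  have hw := co_cmb_ne hwt hhom hne
  rw [co_cmb hhom] at hne
  obtain ⟨l, hl, hlne⟩ := lv_ne_of_word (cmw_hom hhom c u.length) hne hu
  apply hlne
  exact van_use r0 van hwt hhom hmem hc0 c (l + W.card) (fun l' _ => h l') _ hw l le_rfl

theorem core2 (l1 : TaskLead1) (ln : TaskLeadN) (fp : TaskFreeP) (r0 : TaskR0) (van : TaskVan)
    (ad : TaskAdMu) (shn : TaskShearN) (hr : 1 ≤ r) (hR : R + 1 ≤ 2 * r)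
    (hwt : ∀ i, wt i ∈ W) (hhom : ∀ i, LenHom (ψ i) (wt i)) (hmem : ∀ i, ψ i ∈ LieX)
    (hc0 : ∀ i, co (ψ i) [0] = 0) (hcnt : ∀ i u, co (ψ i) u ≠ 0 → r ≤ u.count 1)
    (hind : ∀ c : Fin n → ℚ, (∀ u, u.count 1 ≤ R → co (cmb ψ c) u = 0) → c = 0)
    (hK : ∀ (c : Fin n → ℚ), ∀ w ∈ W, ∀ ρ, r ≤ ρ → ρ ≤ R →
      (∀ u, co (cmw ψ wt c w) u ≠ 0 → ρ ≤ u.count 1) →
      (∃ u, co (cmw ψ wt c w) u ≠ 0 ∧ u.count 1 = ρ) →
      ∃ k, W.card ≤ k ∧ Fp ρ (cmw ψ wt c w) k ≠ 0)
    (hP : ∀ (c : Fin n → ℚ), ∀ w ∈ W, ∀ ρ, r ≤ ρ → ρ ≤ R →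
      (∀ u, co (cmw ψ wt c w) u ≠ 0 → ρ ≤ u.count 1) → ∀ k, Prim (Fp ρ (cmw ψ wt c w) k)) :
    Function.Injective (PhiN ψ) := by
  classical
  obtain ⟨m, hm⟩ : ∃ m, ∀ w ∈ W, w ≤ m := ⟨W.sup id, fun w hw => Finset.le_sup (f := id) hw⟩
  obtain ⟨q, hq⟩ : ∃ q, q = m + 1 := ⟨_, rfl⟩
  -- words of θ
  have hword : ∀ (c : Fin n → ℚ) (v : List ℕ), co (θ (cmb ψ c)) v ≠ 0 → v.sum + v.length ≤ m := by
    intro c v hv
    obtain ⟨j, hj⟩ := theta_cmb hwt hhom hv
    have h1 := hm _ (co_cmb_ne hwt hhom hj)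
    rw [word_length] at h1
    omega
  have hLc : ∀ N (c : Fin n → ℚ), ((lq q N) ∘ₗ (Fintype.linearCombination ℚ ψ)) c = lq q N (cmb ψ c) := by
    intro N c
    rw [LinearMap.comp_apply, Fintype.linearCombination_apply]
    rfl
  obtain ⟨M, sl, hM, hlow, hli⟩ := ad n (m + q * m) (vw q)
    (fun N => (lq q N) ∘ₗ (Fintype.linearCombination ℚ ψ)) (by
      intro l c v hv
      rw [LinearMap.comp_apply, co_lq] at hv
      split_ifs at hv with h
      · exact h
      · exact absurd rfl hv) (by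
      intro c hc
      by_contra hcon
      push Not at hcon
      apply hc
      apply hind
      intro u _
      have hz : ∀ v, co (θ (cmb ψ c)) v = 0 := by
        intro v
        by_contra hv
        have h1 := hword c v hv
        have h2 : q * v.length ≤ q * m := Nat.mul_le_mul_left q (by omega)
        have h3 := hcon (vw q v) (by rw [vw_eq]; omega)
        rw [hLc] at h3
        have h4 := co_lq q (vw q v) (cmb ψ c) v
        rw [h3, co_zero, if_pos rfl] at h4
        exact hv h4.symm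
      refine no_word r0 van hwt hhom hmem hc0 c (u.count 1) ?_ u rfl
      intro l
      apply al_ext
      intro v
      rw [co_lv, co_zero, hz]
      split_ifs <;> rfl)
  have hlow' : ∀ i, ∀ l < sl i, lq q l (cmb ψ (M i)) = 0 := by
    intro i l hl
    rw [← hLc]
    exact hlow i l hl
  have hli' : LinearIndependent ℚ (fun i => lq q (sl i) (cmb ψ (M i))) := by
    have : (fun i => lq q (sl i) (cmb ψ (M i))) = (fun i =>
        ((lq q (sl i)) ∘ₗ (Fintype.linearCombination ℚ ψ)) (M i)) := by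
      funext i
      rw [hLc]
    rw [this]
    exact hli
  have hmin : ∀ i v, co (θ (cmb ψ (M i))) v ≠ 0 → sl i ≤ vw q v := by
    intro i v hv
    by_contra hcon
    have h1 := hlow' i (vw q v) (by omega)
    have h4 := co_lq q (vw q v) (cmb ψ (M i)) v
    rw [h1, co_zero, if_pos rfl] at h4
    exact hv h4.symm
  -- depth and level of the leading part
  have hsel : ∀ i, ∃ ρ s, sl i = s + q * ρ ∧ s + ρ ≤ m ∧ ∃ u, co (cmb ψ (M i)) u ≠ 0 ∧ u.count 1 = ρ := by
    intro i
    obtain ⟨v, hv⟩ := exists_co_ne (hli'.ne_zero i)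
    rw [co_lq] at hv
    split_ifs at hv with h1
    · obtain ⟨j, hj⟩ := theta_cmb hwt hhom hv
      refine ⟨v.length, v.sum, ?_, hword _ _ hv, _, hj, word_count v j⟩
      rw [← h1, vw_eq]
    · exact absurd rfl hv
  choose ρ s h1 h2 h3 using hsel
  have hdepth : ∀ i u, co (cmb ψ (M i)) u ≠ 0 → ρ i ≤ u.count 1 := by
    intro i u hu
    by_contra hcon
    apply hu
    refine no_word r0 van hwt hhom hmem hc0 (M i) (u.count 1) ?_ u rfl
    intro l
    apply al_ext
    intro v
    rw [co_lv, co_zero]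
    split_ifs with h
    · by_contra hv
      have h4 := hword _ _ hv
      have h5 := hmin i v hv
      rw [vw_eq, h.1, h.2] at h5
      have h6 : q * (u.count 1 + 1) ≤ q * ρ i := Nat.mul_le_mul_left q (by omega)
      rw [mul_add, mul_one] at h6
      have h7 := h1 i
      omega
    · rfl
  have hdepthw : ∀ i w u, co (cmw ψ wt (M i) w) u ≠ 0 → ρ i ≤ u.count 1 := by
    intro i w u hu
    have h4 := cmw_hom hhom (M i) w u hu
    apply hdepth i u
    rw [co_cmb hhom, h4]
    exact hu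
  have hρr : ∀ i, r ≤ ρ i := by
    intro i
    obtain ⟨u, hu, hc⟩ := h3 i
    rw [← hc]
    rw [co_cmb hhom] at hu
    exact cmw_cnt hcnt _ _ u hu
  have hρR : ∀ i, ρ i ≤ R := by
    intro i
    by_contra hcon
    apply hM.ne_zero i
    apply hind
    intro u hu
    by_contra hne
    have := hdepth i u hne
    omega
  have hlev : ∀ i, ∀ l < s i, lv (ρ i) l (cmb ψ (M i)) = 0 := by
    intro i l hl
    apply al_ext
    intro v
    rw [co_lv, co_zero]
    split_ifs with h
    · by_contra hv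
      have h5 := hmin i v hv
      rw [vw_eq, h.1, h.2] at h5
      have h7 := h1 i
      omega
    · rfl
  -- condition (C)
  have hC : ∀ i u, co (cmb ψ (M i)) u ≠ 0 → u.count 1 = ρ i → s i + ρ i + 1 ≤ u.length := by
    intro i u hu hur
    have hw := co_cmb_ne hwt hhom hu
    rw [co_cmb hhom] at hu
    obtain ⟨k, hk, hkne⟩ := hK (M i) _ hw (ρ i) (hρr i) (hρR i) (hdepthw i _) ⟨u, hu, hur⟩
    have hkw : k + ρ i ≤ u.length := by
      obtain ⟨v, hv⟩ := exists_co_ne hkne
      have := (co_Fp_ne (cmw_hom hhom (M i) u.length) hv).2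
      omega
    by_contra hcon
    have hz := van_use r0 van hwt hhom hmem hc0 (M i) (s i) (hlev i) _ hw (u.length - ρ i - k) (by omega)
    rw [lv_hom (cmw_hom hhom (M i) u.length), if_pos (by omega)] at hz
    have : u.length - (u.length - ρ i - k + ρ i) = k := by omega
    rw [this] at hz
    exact hkne hz
  -- the leading parts
  have hlam : ∀ i, lq q (sl i) (cmb ψ (M i)) = lv (ρ i) (s i) (cmb ψ (M i)) := by
    intro i
    apply al_ext
    intro v
    rw [co_lq, co_lv]
    by_cases hv : co (θ (cmb ψ (M i))) v = 0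
    · rw [hv]; split_ifs <;> rfl
    · have h4 := hword _ _ hv
      have h5 := h2 i
      have h6 := h1 i
      by_cases h7 : v.length = ρ i ∧ v.sum = s i
      · rw [if_pos h7, if_pos]
        rw [vw_eq, h7.1, h7.2, h6]
      · rw [if_neg h7, if_neg]
        intro h8
        rw [vw_eq, h6] at h8
        have h9 := qdiv (show v.sum < q by omega) (show s i < q by omega) h8
        exact h7 ⟨h9.2, h9.1⟩
  have hprim : ∀ i, Prim (lq q (sl i) (cmb ψ (M i))) := by
    intro i
    rw [hlam, cmb_eq hwt, map_sum]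
    refine prim_sum _ _ fun w hw => ?_
    rw [lv_hom (cmw_hom hhom (M i) w)]
    split_ifs
    · exact hP (M i) w hw (ρ i) (hρr i) (hρR i) (hdepthw i w) _
    · exact prim_zero
  have hlen : ∀ i, LenHom (lq q (sl i) (cmb ψ (M i))) (ρ i) := by
    intro i v hv
    rw [hlam, co_lv] at hv
    split_ifs at hv with h
    · exact h.1
    · exact absurd rfl hv
  apply shn n ψ M hM
  have hg : ∀ i, (∑ j, M i j • ψ j) = cmb ψ (M i) := fun i => rfl
  refine ln l1 n _ (fun i => lq q (sl i) (cmb ψ (M i))) sl q ?_ ?_ ?_ ?_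
  · intro i u hu
    rw [hg] at hu
    have h4 := hdepth i u hu
    have h5 := cw_eq q u
    have h6 : u.count 1 ≤ u.length := List.count_le_length
    have h7 := h1 i
    have h8 := h2 i
    rcases Nat.lt_or_ge (ρ i) (u.count 1) with h | h
    · have h9 : q * (ρ i + 1) ≤ q * u.count 1 := Nat.mul_le_mul_left q h
      rw [mul_add, mul_one] at h9
      omega
    · have h9 : u.count 1 = ρ i := le_antisymm h h4
      have h10 := hC i u hu h9
      rw [h9] at h5
      omega
  · intro i v hv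
    rw [hg] at hv
    have hv1 : co (θ (cmb ψ (M i))) v ≠ co (lq q (sl i) (cmb ψ (M i))) v := hv
    rw [co_lq] at hv1
    by_cases h : vw q v = sl i
    · rw [if_pos h] at hv1; exact absurd rfl hv1
    · rw [if_neg h] at hv1
      have := hmin i v hv1
      omega
  · intro i v hv
    have hv1 : co (lq q (sl i) (cmb ψ (M i))) v ≠ 0 := hv
    rw [co_lq] at hv1
    split_ifs at hv1 with h
    · exact h
    · exact absurd rfl hv1
  · refine fp n r _ ρ hr ?_ hlen hprim hli'
    intro i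
    have := hρr i
    have := hρR i
    omega

end

end Pool.Agent.H777R4.DM
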