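import Pool.Agent.H777R4.DM.Stmts2

set_option autoImplicit false

namespace Pool.Agent.H777R4.DM

attribute [local instance 100] LieRing.ofAssociativeRing

/-- select words of length `r` and sum `l` -/
noncomputable def sel (r l : ℕ) : AY →ₗ[ℚ] AY :=
  lext (fun v => if v.length = r ∧ v.sum = l then wd v else 0)

lemma co_sel (r l : ℕ) (P : AY) (v : List ℕ) :
    co (sel r l P) v = if v.length = r ∧ v.sum = l then co P v else 0 := by
  induction P using al_induction with
  | h1 u =>
    unfold sel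
    rw [lext_wd]
    split_ifs with h1 h2 h2
    · rfl
    · rw [co_wd, if_neg]
      rintro rfl; exact h2 h1
    · rw [co_zero, co_wd, if_neg]
      rintro rfl; exact h1 h2
    · exact co_zero _
  | h2 P Q hP hQ => rw [map_add, co_add, co_add, hP, hQ]; split_ifs <;> ring
  | h3 c P hP => rw [map_smul, co_smul, co_smul, hP]; split_ifs <;> ring

/-- the part of `θ f` of depth `r` and level `l` -/
noncomputable def lv (r l : ℕ) : A →ₗ[ℚ] AY := (sel r l) ∘ₗ θ

lemma co_lv (r l : ℕ) (f : A) (v : List ℕ) :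
    co (lv r l f) v = if v.length = r ∧ v.sum = l then co (θ f) v else 0 := by
  unfold lv
  rw [LinearMap.comp_apply, co_sel]

lemma lv_hom {f : A} {w : ℕ} (h : LenHom f w) (r l : ℕ) :
    lv r l f = if l + r ≤ w then Fp r f (w - (l + r)) else 0 := by
  apply al_ext
  intro v
  rw [co_lv, co_theta h]
  by_cases h1 : v.length = r ∧ v.sum = l
  · rw [if_pos h1]
    obtain ⟨h2, h3⟩ := h1
    rw [h2, h3]
    split_ifs with h4
    · rw [co_Fp, if_pos h2]
    · rw [co_zero]
  · rw [if_neg h1]
    split_ifs with h4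
    · by_contra hcon
      have h5 := co_Fp_ne h (Ne.symm hcon)
      apply h1
      refine ⟨h5.1, ?_⟩
      omega
    · rw [co_zero]

lemma lv_rec (r0 : TaskR0) {f : A} {w : ℕ} (hf : f ∈ LieX) (h0 : co f [0] = 0) (h : LenHom f w) (r l : ℕ) :
    ((w : ℚ) - r - (l : ℚ)) • lv r l f = - dl (lv r (l + 1) f) := by
  rw [lv_hom h, lv_hom h]
  rcases Nat.lt_or_ge (l + r) w with h1 | h1
  · rw [if_pos (by omega), if_pos (by omega)]
    have hR := congrArg (dp r) (r0 f hf h0 (w - (l + 1 + r)))
    rw [map_smul, map_neg, dp_dl] at hR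
    have e1 : w - (l + r) = w - (l + 1 + r) + 1 := by omega
    have e2 : ((w : ℚ) - r - (l : ℚ)) = ((w - (l + 1 + r) : ℕ) : ℚ) + 1 := by
      have : ((w - (l + 1 + r) : ℕ) : ℚ) + 1 = ((w - (l + 1 + r) + 1 : ℕ) : ℚ) := by push_cast; ring
      rw [this, ← e1, Nat.cast_sub (by omega)]
      push_cast; ring
    rw [e1, e2]
    exact hR
  · rw [if_neg (show ¬ l + 1 + r ≤ w by omega), map_zero, neg_zero]
    split_ifs with h2
    · have h3 : w = l + r := by omega
      subst h3
      push_cast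
      rw [show ((l : ℚ) + r - r - l) = 0 by ring, zero_smul]
    · rw [smul_zero]

/-- linear combination of the `ψ i` -/
noncomputable def cmb {n : ℕ} (ψ : Fin n → A) (c : Fin n → ℚ) : A := ∑ i, c i • ψ i

/-- its weight `w` part -/
noncomputable def cmw {n : ℕ} (ψ : Fin n → A) (wt : Fin n → ℕ) (c : Fin n → ℚ) (w : ℕ) : A :=
  ∑ i, (if wt i = w then c i else 0) • ψ i

lemma co_sum {α ι : Type} (s : Finset ι) (P : ι → Al α) (l : List α) :
    co (∑ i ∈ s, P i) l = ∑ i ∈ s, co (P i) l := by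
  classical
  induction s using Finset.induction_on with
  | empty => simp [co_zero]
  | insert a s ha ih => rw [Finset.sum_insert ha, Finset.sum_insert ha, co_add, ih]

section
variable {n r : ℕ} {ψ : Fin n → A} {wt : Fin n → ℕ} {W : Finset ℕ}

lemma cmw_hom (hhom : ∀ i, LenHom (ψ i) (wt i)) (c : Fin n → ℚ) (w : ℕ) : LenHom (cmw ψ wt c w) w := by
  intro u hu
  unfold cmw at hu
  rw [co_sum] at hu
  obtain ⟨i, _, hi⟩ := Finset.exists_ne_zero_of_sum_ne_zero hu
  rw [co_smul] at hi
  split_ifs at hi with h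
  · rw [← h]
    exact hhom i u (right_ne_zero_of_mul hi)
  · rw [zero_mul] at hi; exact absurd rfl hi

lemma cmw_cnt (hcnt : ∀ i u, co (ψ i) u ≠ 0 → r ≤ u.count 1) (c : Fin n → ℚ) (w : ℕ) :
    ∀ u, co (cmw ψ wt c w) u ≠ 0 → r ≤ u.count 1 := by
  intro u hu
  unfold cmw at hu
  rw [co_sum] at hu
  obtain ⟨i, _, hi⟩ := Finset.exists_ne_zero_of_sum_ne_zero hu
  rw [co_smul] at hi
  exact hcnt i u (right_ne_zero_of_mul hi)

lemma cmb_eq (hwt : ∀ i, wt i ∈ W) (c : Fin n → ℚ) : cmb ψ c = ∑ w ∈ W, cmw ψ wt c w := by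
  unfold cmb cmw
  rw [Finset.sum_comm]
  refine Finset.sum_congr rfl fun i _ => ?_
  rw [← Finset.sum_smul, Finset.sum_ite_eq, if_pos (hwt i)]

/-- the coefficient of a word of length `w` -/
lemma co_cmb (hhom : ∀ i, LenHom (ψ i) (wt i)) (c : Fin n → ℚ) (u : List (Fin 2)) :
    co (cmb ψ c) u = co (cmw ψ wt c u.length) u := by
  unfold cmb cmw
  rw [co_sum, co_sum]
  refine Finset.sum_congr rfl fun i _ => ?_
  rw [co_smul, co_smul]
  split_ifs with h
  · rfl
  · rw [zero_mul]
    by_contra hcon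
    have h1 : co (ψ i) u ≠ 0 := right_ne_zero_of_mul hcon
    exact h (hhom i u h1).symm

lemma co_cmb_ne (hwt : ∀ i, wt i ∈ W) (hhom : ∀ i, LenHom (ψ i) (wt i)) {c : Fin n → ℚ}
    {u : List (Fin 2)} (h : co (cmb ψ c) u ≠ 0) : u.length ∈ W := by
  unfold cmb at h
  rw [co_sum] at h
  obtain ⟨i, _, hi⟩ := Finset.exists_ne_zero_of_sum_ne_zero h
  rw [co_smul] at hi
  have h1 : co (ψ i) u ≠ 0 := right_ne_zero_of_mul hi
  rw [hhom i u h1]
  exact hwt i

/-- vanishing of the levels of the combination below `s` -/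
lemma van_use (r0 : TaskR0) (van : TaskVan) (hwt : ∀ i, wt i ∈ W) (hhom : ∀ i, LenHom (ψ i) (wt i))
    (hmem : ∀ i, ψ i ∈ LieX) (hc0 : ∀ i, co (ψ i) [0] = 0) (c : Fin n → ℚ) (s : ℕ)
    (hs : ∀ l < s, lv r l (cmb ψ c) = 0) : ∀ w ∈ W, ∀ l, l + W.card ≤ s → lv r l (cmw ψ wt c w) = 0 := by
  refine van W r s (fun w l => lv r l (cmw ψ wt c w)) ?_ ?_
  · intro w _ l
    refine lv_rec r0 ?_ ?_ (cmw_hom hhom c w) r l
    · unfold cmw
      exact LieX.toSubmodule.sum_mem fun i _ => LieX.toSubmodule.smul_mem _ (hmem i)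
    · unfold cmw
      rw [co_sum]
      refine Finset.sum_eq_zero fun i _ => ?_
      rw [co_smul, hc0, mul_zero]
  · intro l hl
    rw [← map_sum, ← cmb_eq hwt]
    exact hs l hl

/-- a word of depth `r` gives a nonzero level -/
lemma lv_ne_of_word {f : A} {w : ℕ} (h : LenHom f w) {u : List (Fin 2)} (hu : co f u ≠ 0)
    (hr : u.count 1 = r) : ∃ l, l + r ≤ w ∧ lv r l f ≠ 0 := by
  have h1 := wordX_strip u
  have h2 : (strip u).1.length = r := by
    have := word_count (strip u).1 (strip u).2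
    rw [h1, hr] at this
    exact this.symm
  have h3 : (strip u).1.sum + (strip u).1.length + (strip u).2 = w := by
    rw [← word_length, h1]
    exact h u hu
  refine ⟨(strip u).1.sum, by omega, ?_⟩
  rw [lv_hom h, if_pos (by omega)]
  intro hcon
  have h4 := co_Fp r f (w - ((strip u).1.sum + r)) (strip u).1
  rw [hcon, co_zero, if_pos h2] at h4
  apply hu
  have h5 : w - ((strip u).1.sum + r) = (strip u).2 := by omega
  rw [h5, h1] at h4
  exact h4.symm

theorem core (l1 : TaskLead1) (ln : TaskLeadN) (fn : TaskFreeN) (r0 : TaskR0) (van : TaskVan)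
    (ad : TaskAdapt) (shn : TaskShearN) (hr : 1 ≤ r)
    (hwt : ∀ i, wt i ∈ W) (hhom : ∀ i, LenHom (ψ i) (wt i)) (hmem : ∀ i, ψ i ∈ LieX)
    (hc0 : ∀ i, co (ψ i) [0] = 0) (hcnt : ∀ i u, co (ψ i) u ≠ 0 → r ≤ u.count 1)
    (hind : ∀ c : Fin n → ℚ, (∀ u, u.count 1 = r → co (cmb ψ c) u = 0) → c = 0)
    (hK : ∀ (c : Fin n → ℚ), ∀ w ∈ W, (∃ u, co (cmw ψ wt c w) u ≠ 0 ∧ u.count 1 = r) →
      ∃ k, W.card ≤ k ∧ Fp r (cmw ψ wt c w) k ≠ 0) : Function.Injective (PhiN ψ) := by
  classical
  obtain ⟨m, hm⟩ : ∃ m, ∀ w ∈ W, w ≤ m := ⟨W.sup id, fun w hw => Finset.le_sup (f := id) hw⟩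
  obtain ⟨M, sl, hM, hlow, hli⟩ := ad n (m + W.card)
    (fun l => (lv r l) ∘ₗ (Fintype.linearCombination ℚ ψ)) (by
      intro l c v hv
      rw [LinearMap.comp_apply, co_lv] at hv
      split_ifs at hv with h
      · exact h.2
      · exact absurd rfl hv) (by
      intro c hc
      by_contra hcon
      push Not at hcon
      apply hc
      apply hind
      intro u hu
      by_contra hne
      have hw := co_cmb_ne hwt hhom hne
      rw [co_cmb hhom] at hne
      obtain ⟨l, hl, hlne⟩ := lv_ne_of_word (cmw_hom hhom c u.length) hne hu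
      apply hlne
      have hmw := hm _ hw
      refine van_use r0 van hwt hhom hmem hc0 c (m + W.card + 1) ?_ _ hw l (by omega)
      intro l' hl'
      have := hcon l' (by omega)
      rw [LinearMap.comp_apply, Fintype.linearCombination_apply] at this
      exact this)
  -- the new generators
  apply shn n ψ M hM
  have hg : ∀ i, (∑ j, M i j • ψ j) = cmb ψ (M i) := fun i => rfl
  have hLi : ∀ i l, ((lv r l) ∘ₗ (Fintype.linearCombination ℚ ψ)) (M i) = lv r l (cmb ψ (M i)) := by
    intro i l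
    rw [LinearMap.comp_apply, Fintype.linearCombination_apply]
    rfl
  have hlow' : ∀ i, ∀ l < sl i, lv r l (cmb ψ (M i)) = 0 := by
    intro i l hl
    rw [← hLi]
    exact hlow i l hl
  have hli' : LinearIndependent ℚ (fun i => lv r (sl i) (cmb ψ (M i))) := by
    have : (fun i => lv r (sl i) (cmb ψ (M i))) = (fun i =>
        ((lv r (sl i)) ∘ₗ (Fintype.linearCombination ℚ ψ)) (M i)) := by
      funext i
      rw [hLi]
    rw [this]
    exact hli
  -- condition (C)
  have hC : ∀ i u, co (cmb ψ (M i)) u ≠ 0 → u.count 1 = r → sl i + r + 1 ≤ u.length := by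
    intro i u hu hur
    have hw := co_cmb_ne hwt hhom hu
    rw [co_cmb hhom] at hu
    obtain ⟨k, hk, hkne⟩ := hK (M i) _ hw ⟨u, hu, hur⟩
    have hkw : k + r ≤ u.length := by
      obtain ⟨v, hv⟩ := exists_co_ne hkne
      have := (co_Fp_ne (cmw_hom hhom (M i) u.length) hv).2
      omega
    by_contra hcon
    have hz := van_use r0 van hwt hhom hmem hc0 (M i) (sl i) (hlow' i) _ hw (u.length - r - k) (by omega)
    rw [lv_hom (cmw_hom hhom (M i) u.length), if_pos (by omega)] at hz
    have : u.length - (u.length - r - k + r) = k := by omega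
    rw [this] at hz
    exact hkne hz
  obtain ⟨q, hq⟩ : ∃ q, q = (∑ i, sl i) + 1 := ⟨_, rfl⟩
  have hq1 : ∀ i, sl i + 1 ≤ q := by
    intro i
    have : sl i ≤ ∑ i, sl i := Finset.single_le_sum (f := sl) (fun _ _ => Nat.zero_le _) (Finset.mem_univ i)
    omega
  refine ln l1 n _ (fun i => lv r (sl i) (cmb ψ (M i))) (fun i => sl i + q * r) q ?_ ?_ ?_ ?_
  · intro i u hu
    rw [hg] at hu
    have h1 : r ≤ u.count 1 := by
      rw [co_cmb hhom] at hu
      exact cmw_cnt hcnt _ _ u hu
    have h3 := cw_eq q u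
    have h4 : u.count 1 ≤ u.length := List.count_le_length
    have h5 := hq1 i
    rcases Nat.lt_or_ge r (u.count 1) with h | h
    · have h8 : q * (r + 1) ≤ q * u.count 1 := Nat.mul_le_mul_left q h
      rw [mul_add, mul_one] at h8
      show sl i + q * r + 1 ≤ _
      omega
    · have h8 : u.count 1 = r := le_antisymm h h1
      have h9 := hC i u hu h8
      rw [h8] at h3
      show sl i + q * r + 1 ≤ _
      omega
  · intro i v hv
    rw [hg] at hv
    have hv1 : co (θ (cmb ψ (M i))) v ≠ co (lv r (sl i) (cmb ψ (M i))) v := hv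
    rw [co_lv] at hv1
    have h5 := hq1 i
    rw [vw_eq]
    show sl i + q * r + 1 ≤ _
    rcases lt_trichotomy v.length r with h | h | h
    · exfalso
      apply hv1
      rw [if_neg (by omega)]
      by_contra hcon
      have e : θ (cmb ψ (M i)) = ∑ j, M i j • θ (ψ j) := by
        unfold cmb
        rw [map_sum]
        exact Finset.sum_congr rfl fun j _ => by rw [map_smul]
      rw [e, co_sum] at hcon
      obtain ⟨j, _, hj⟩ := Finset.exists_ne_zero_of_sum_ne_zero hcon
      rw [co_smul] at hj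
      have h6 := right_ne_zero_of_mul hj
      rw [co_theta (hhom j)] at h6
      split_ifs at h6 with h7
      · have := hcnt j _ h6
        rw [word_count] at this
        omega
      · exact h6 rfl
    · have h6 : v.sum ≠ sl i := by
        intro h7
        apply hv1
        rw [if_pos ⟨h, h7⟩]
      have h7 : ¬ v.sum < sl i := by
        intro h8
        apply hv1
        rw [if_neg (fun h9 => h6 h9.2)]
        have h9 := co_lv r v.sum (cmb ψ (M i)) v
        rw [hlow' i _ h8, co_zero, if_pos ⟨h, rfl⟩] at h9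
        exact h9.symm
      rw [h]
      omega
    · have h8 : q * (r + 1) ≤ q * v.length := Nat.mul_le_mul_left q h
      rw [mul_add, mul_one] at h8
      omega
  · intro i v hv
    have hv1 : co (lv r (sl i) (cmb ψ (M i))) v ≠ 0 := hv
    rw [co_lv] at hv1
    split_ifs at hv1 with h
    · rw [vw_eq, h.1, h.2]
    · exact absurd rfl hv1
  · refine fn n r _ hr ?_ hli'
    intro i v hv
    rw [co_lv] at hv
    split_ifs at hv with h
    · exact h.1
    · exact absurd rfl hv

end

end Pool.Agent.H777R4.DM
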