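import Pool.Agent.H777R4.DM.Cases

set_option autoImplicit false

namespace Pool.Agent.H777R4.DM

attribute [local instance 100] LieRing.ofAssociativeRing

lemma comp_lenHom (w : ℕ) (ψ : A) : LenHom (comp w ψ) w := by
  intro u hu
  rw [co_comp] at hu
  split_ifs at hu with h
  · exact h
  · exact absurd rfl hu

/-- the lowest weight component -/
lemma exists_low {ψ : A} (h0 : ψ ≠ 0) : ∃ w, (∀ u, co ψ u ≠ 0 → w ≤ u.length) ∧ comp w ψ ≠ 0 := by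
  classical
  have hex : ∃ c, ∃ u, co ψ u ≠ 0 ∧ u.length = c := by
    obtain ⟨u, hu⟩ := exists_co_ne h0
    exact ⟨_, u, hu, rfl⟩
  refine ⟨Nat.find hex, ?_, ?_⟩
  · intro u hu
    exact Nat.find_min' hex ⟨u, hu, rfl⟩
  · obtain ⟨u, hu, h1⟩ := Nat.find_spec hex
    intro h
    have h2 := co_comp (Nat.find hex) ψ u
    rw [h, co_zero, if_pos h1] at h2
    exact hu h2.symm

/-- nonzero homogeneous elements of different weights are independent -/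
lemma indep_of_ne {ψ₁ ψ₂ : A} {w₁ w₂ : ℕ} (h₁ : LenHom ψ₁ w₁) (h₂ : LenHom ψ₂ w₂) (n₁ : ψ₁ ≠ 0)
    (n₂ : ψ₂ ≠ 0) (hw : w₁ ≠ w₂) : ∀ a b : ℚ, a • ψ₁ + b • ψ₂ = 0 → a = 0 ∧ b = 0 := by
  intro a b hab
  obtain ⟨u₁, hu₁⟩ := exists_co_ne n₁
  obtain ⟨u₂, hu₂⟩ := exists_co_ne n₂
  have e₁ : co ψ₂ u₁ = 0 := by
    by_contra hcon
    exact hw ((h₁ _ hu₁).symm.trans (h₂ _ hcon))
  have e₂ : co ψ₁ u₂ = 0 := by
    by_contra hcon
    exact hw ((h₁ _ hcon).symm.trans (h₂ _ hu₂))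
  have f₁ := co_add (a • ψ₁) (b • ψ₂) u₁
  have f₂ := co_add (a • ψ₁) (b • ψ₂) u₂
  rw [hab, co_zero, co_smul, co_smul, e₁, mul_zero, add_zero] at f₁
  rw [hab, co_zero, co_smul, co_smul, e₂, mul_zero, zero_add] at f₂
  exact ⟨(mul_eq_zero.mp f₁.symm).resolve_right hu₁, (mul_eq_zero.mp f₂.symm).resolve_right hu₂⟩

/-- the case of linearly independent lowest parts -/
lemma low_indep (hom : Homog) (tcomp : TaskComp) (tlow : TaskLow) {ψ₁ ψ₂ : A} (h₁ : IsDM ψ₁)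
    (h₂ : IsDM ψ₂) {w₁ w₂ : ℕ} (l₁ : ∀ u, co ψ₁ u ≠ 0 → w₁ ≤ u.length)
    (l₂ : ∀ u, co ψ₂ u ≠ 0 → w₂ ≤ u.length)
    (hli : ∀ a b : ℚ, a • comp w₁ ψ₁ + b • comp w₂ ψ₂ = 0 → a = 0 ∧ b = 0) :
    Function.Injective (Phi ψ₁ ψ₂) := by
  refine tlow ![ψ₁, ψ₂] ![w₁, w₂] ?_ ?_
  · rw [Fin.forall_fin_two]
    exact ⟨l₁, l₂⟩
  · exact hom _ _ w₁ w₂ (tcomp ψ₁ w₁ h₁) (tcomp ψ₂ w₂ h₂) (comp_lenHom w₁ ψ₁) (comp_lenHom w₂ ψ₂) hli

theorem phi_inj (hom : Homog) (tcomp : TaskComp) (tlow : TaskLow) (sh : TaskShear) {ψ₁ ψ₂ : A}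
    (h₁ : IsDM ψ₁) (h₂ : IsDM ψ₂) (hli : ∀ a b : ℚ, a • ψ₁ + b • ψ₂ = 0 → a = 0 ∧ b = 0) :
    Function.Injective (Phi ψ₁ ψ₂) := by
  have n1 : ψ₁ ≠ 0 := by
    intro h
    have := hli 1 0 (by rw [h]; simp)
    exact one_ne_zero this.1
  have n2 : ψ₂ ≠ 0 := by
    intro h
    have := hli 0 1 (by rw [h]; simp)
    exact one_ne_zero this.2
  obtain ⟨w₁, l₁, c₁⟩ := exists_low n1
  obtain ⟨w₂, l₂, c₂⟩ := exists_low n2
  by_cases hA : ∀ c : ℚ, comp w₂ ψ₂ ≠ c • comp w₁ ψ₁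
  · refine low_indep hom tcomp tlow h₁ h₂ l₁ l₂ ?_
    intro a b hab
    have hb : b = 0 := by
      by_contra hb
      apply hA (-(b⁻¹ * a))
      have h3 : b • comp w₂ ψ₂ = - (a • comp w₁ ψ₁) := eq_neg_of_add_eq_zero_right hab
      have h4 : comp w₂ ψ₂ = b⁻¹ • (b • comp w₂ ψ₂) := by
        rw [smul_smul, inv_mul_cancel₀ hb, one_smul]
      rw [h4, h3]
      module
    refine ⟨?_, hb⟩
    rw [hb, zero_smul, add_zero] at hab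
    exact (smul_eq_zero.mp hab).resolve_right c₁
  · push Not at hA
    obtain ⟨κ, hκ⟩ := hA
    have hκ0 : κ ≠ 0 := by
      rintro rfl
      rw [zero_smul] at hκ
      exact c₂ hκ
    have hw : w₁ = w₂ := by
      obtain ⟨u, hu⟩ := exists_co_ne c₁
      have h1 := comp_lenHom _ _ u hu
      have h2 : co (comp w₂ ψ₂) u ≠ 0 := by
        rw [hκ, co_smul]; exact mul_ne_zero hκ0 hu
      have h3 := comp_lenHom _ _ u h2
      omega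
    subst hw
    apply sh ψ₁ ψ₂ κ
    have hne : ψ₂ - κ • ψ₁ ≠ 0 := by
      intro h
      have := hli (-κ) 1 (by rw [← h]; module)
      exact one_ne_zero this.2
    have hd := isDM_sub h₁ h₂ κ
    obtain ⟨w₃, l₃, c₃⟩ := exists_low hne
    refine low_indep hom tcomp tlow h₁ hd l₁ l₃ ?_
    refine indep_of_ne (comp_lenHom _ _) (comp_lenHom _ _) c₁ c₃ ?_
    rintro rfl
    apply c₃
    rw [map_sub, map_smul, hκ, sub_self]

/-- **Main theorem** (modulo the tasks). -/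
theorem main_of (hom : Homog) (tcomp : TaskComp) (tlow : TaskLow) (sh : TaskShear) (fin : TaskFinal)
    (ψ₁ ψ₂ : A) (h₁ : IsDM ψ₁) (h₂ : IsDM ψ₂) (hli : LinearIndependent ℚ ![ψ₁, ψ₂]) :
    ∃ φ : LieX →ₗ[ℚ] A, Function.Injective φ ∧
    (∀ P : LieX, (P : A) = x 0 → φ P = ψ₁) ∧ (∀ P : LieX, (P : A) = x 1 → φ P = ψ₂) ∧
    ∀ P Q : LieX, φ ⁅P, Q⁆ = ihara (φ P) (φ Q) :=
  fin ψ₁ ψ₂ h₁.mem h₂.mem (phi_inj hom tcomp tlow sh h₁ h₂ (LinearIndependent.pair_iff.mp hli))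

end Pool.Agent.H777R4.DM
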