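import Pool.Agent.H777R4.DM.Cases

/-! Second part: n generators. Task statements (project H777-DSN). -/

set_option autoImplicit false

namespace Pool.Agent.H777R4.DM

attribute [local instance 100] LieRing.ofAssociativeRing

/-- `P ↦ P(s_{f_1}, …, s_{f_n}) 1` -/
noncomputable def PhiN {n : ℕ} (f : Fin n → A) : Al (Fin n) →ₗ[ℚ] A :=
  (LinearMap.applyₗ (1 : A)) ∘ₗ
    (MonoidAlgebra.lift ℚ (Module.End ℚ A) (FreeMonoid (Fin n))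
      (FreeMonoid.lift (fun i => s (f i)))).toLinearMap

/-- `P ↦ P(σ_1, …, σ_n)` -/
noncomputable def lamN {n : ℕ} (σ : Fin n → AY) : Al (Fin n) →ₐ[ℚ] AY :=
  MonoidAlgebra.lift ℚ AY (FreeMonoid (Fin n)) (FreeMonoid.lift σ)

/-- The free Lie algebra on `n` letters inside `ℚ⟨X₁, …, Xₙ⟩`. -/
noncomputable def LieN (n : ℕ) : LieSubalgebra ℚ (Al (Fin n)) :=
  LieSubalgebra.lieSpan ℚ (Al (Fin n)) (Set.range (fun i : Fin n => (wd [i] : Al (Fin n))))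

def TaskLeadN : Prop := TaskLead1 → ∀ (n : ℕ) (f : Fin n → A) (σ : Fin n → AY) (N : Fin n → ℕ) (q : ℕ),
  (∀ i u, co (f i) u ≠ 0 → N i + 1 ≤ cw q u) →
  (∀ i v, co (θ (f i)) v ≠ co (σ i) v → N i + 1 ≤ vw q v) →
  (∀ i v, co (σ i) v ≠ 0 → vw q v = N i) →
  Function.Injective (lamN σ) → Function.Injective (PhiN f)

def TaskFreeN : Prop := ∀ (n r : ℕ) (σ : Fin n → AY), 1 ≤ r → (∀ i, LenHom (σ i) r) →
  LinearIndependent ℚ σ → Function.Injective (lamN σ)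

def TaskKB : Prop := TaskR0 → TaskTwoB → ∀ (ψ : A) (r w : ℕ), ψ ∈ LieX → co ψ [0] = 0 → LenHom ψ w →
  1 ≤ r → (∀ u, co ψ u ≠ 0 → r ≤ u.count 1) → (∃ u, co ψ u ≠ 0 ∧ u.count 1 = r) → Prim (Fp r ψ 0) →
  ∃ k, w ≤ r * k + r ∧ Fp r ψ k ≠ 0

def TaskVan : Prop := ∀ (W : Finset ℕ) (r s : ℕ) (H : ℕ → ℕ → AY),
  (∀ w ∈ W, ∀ l : ℕ, ((w : ℚ) - r - (l : ℚ)) • H w l = - dl (H w (l + 1))) →
  (∀ l < s, ∑ w ∈ W, H w l = 0) → ∀ w ∈ W, ∀ l, l + W.card ≤ s → H w l = 0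

def TaskAdapt : Prop := ∀ (n B : ℕ) (L : ℕ → (Fin n → ℚ) →ₗ[ℚ] AY),
  (∀ l c v, co (L l c) v ≠ 0 → v.sum = l) → (∀ c, c ≠ 0 → ∃ l ≤ B, L l c ≠ 0) →
  ∃ (M : Fin n → Fin n → ℚ) (sl : Fin n → ℕ), LinearIndependent ℚ M ∧
    (∀ i, ∀ l < sl i, L l (M i) = 0) ∧ LinearIndependent ℚ (fun i => L (sl i) (M i))

def TaskShearN : Prop := ∀ (n : ℕ) (f : Fin n → A) (M : Fin n → Fin n → ℚ), LinearIndependent ℚ M →
  Function.Injective (PhiN (fun i => ∑ j, M i j • f j)) → Function.Injective (PhiN f)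

def TaskFinalN : Prop := ∀ (n : ℕ) (f : Fin n → A), (∀ i, PhiN f (wd [i]) = f i) ∧
  ∀ P ∈ LieN n, ∀ Q ∈ LieN n, PhiN f (P * Q - Q * P) = ihara (PhiN f P) (PhiN f Q)

end Pool.Agent.H777R4.DM
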